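import Pool.Agent.Lib.MP_cfacaa_ag.Tor.Defs

/-!
Farkas' lemma over the integers.
-/

namespace Pool.Agent.MP_cfacaa_ag.Tor

/-- Farkas' lemma: `B` has a positive multiple in the monoid generated by the `b i`, `i ∈ s`, or some `ν` is
nonnegative on the `b i` and negative on `B`. -/
theorem farkas {r : ℕ} {σ : Type} [DecidableEq σ] (s : Finset σ) :
    ∀ (b : σ → Fin r → ℤ) (B : Fin r → ℤ),
      (∃ n : ℕ, 0 < n ∧ ∃ e : σ → ℕ, ∑ i ∈ s, e i • b i = n • B) ∨
        ∃ ν : (Fin r → ℤ) →+ ℤ, (∀ i ∈ s, 0 ≤ ν (b i)) ∧ ν B < 0 := by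
  induction s using Finset.induction_on with
  | empty =>
    intro b B
    by_cases hB : B = 0
    · left
      exact ⟨1, one_pos, 0, by simp [hB]⟩
    · right
      obtain ⟨k, hk⟩ : ∃ k, B k ≠ 0 := by
        by_contra hcon
        push Not at hcon
        exact hB (funext hcon)
      rcases lt_or_gt_of_ne hk with hneg | hpos
      · exact ⟨Pi.evalAddMonoidHom _ k, by simp, hneg⟩
      · refine ⟨-Pi.evalAddMonoidHom _ k, by simp, ?_⟩
        have : (-Pi.evalAddMonoidHom (fun _ : Fin r => ℤ) k) B = - B k := rfl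
        rw [this]
        lia
  | insert j s hj ih =>
    intro b B
    rcases ih b B with ⟨n, hn, e, he⟩ | ⟨l, hl, hlB⟩
    · left
      refine ⟨n, hn, fun i => if i = j then 0 else e i, ?_⟩
      rw [Finset.sum_insert hj]
      beta_reduce
      rw [if_pos rfl, zero_smul, zero_add, ← he]
      refine Finset.sum_congr rfl fun i hi => ?_
      rw [if_neg]
      rintro rfl
      exact hj hi
    by_cases hlj : 0 ≤ l (b j)
    · right
      refine ⟨l, ?_, hlB⟩
      intro i hi
      rcases Finset.mem_insert.mp hi with rfl | hi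
      · exact hlj
      · exact hl i hi
    push Not at hlj
    rcases ih (fun i => (-l (b j)) • b i + l (b i) • b j) ((-l (b j)) • B - (-l B) • b j) with
      ⟨n, hn, e, he⟩ | ⟨μ, hμ, hμB⟩
    · left
      refine ⟨n * (-l (b j)).toNat, Nat.mul_pos hn (by lia),
        fun i => if i = j then n * (-l B).toNat + ∑ i ∈ s, e i * (l (b i)).toNat else e i * (-l (b j)).toNat, ?_⟩
      rw [Finset.sum_insert hj]
      beta_reduce
      rw [if_pos rfl]
      have h1 : ∑ i ∈ s, (if i = j then n * (-l B).toNat + ∑ i ∈ s, e i * (l (b i)).toNat else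
          e i * (-l (b j)).toNat) • b i = ∑ i ∈ s, (e i * (-l (b j)).toNat) • b i := by
        refine Finset.sum_congr rfl fun i hi => ?_
        rw [if_neg]
        rintro rfl
        exact hj hi
      rw [h1]
      have h2 : ∀ (m k : ℕ) (z : ℤ) (hz : 0 ≤ z) (v : Fin r → ℤ), k * z.toNat = m → m • v = k • (z • v) := by
        intro m k z hz v hm
        rw [← hm, mul_smul]
        congr 1
        rw [← natCast_zsmul, Int.toNat_of_nonneg hz]
      have h3 : (n * (-l (b j)).toNat) • B = n • ((-l (b j)) • B) := h2 _ n _ (by lia) B rfl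
      have h4 : (n * (-l B).toNat) • b j = n • ((-l B) • b j) := h2 _ n _ (by lia) (b j) rfl
      have h5 : ∑ i ∈ s, (e i * (-l (b j)).toNat) • b i + ∑ i ∈ s, (e i * (l (b i)).toNat) • b j =
          ∑ i ∈ s, e i • ((-l (b j)) • b i + l (b i) • b j) := by
        rw [← Finset.sum_add_distrib]
        refine Finset.sum_congr rfl fun i hi => ?_
        rw [h2 _ (e i) _ (by lia : 0 ≤ -l (b j)) (b i) rfl, h2 _ (e i) _ (hl i hi) (b j) rfl, smul_add]
      rw [add_smul, Finset.sum_smul, h3, h4, add_assoc, add_comm (∑ i ∈ s, _), h5, he, smul_sub]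
      abel
    · right
      refine ⟨(-l (b j)) • μ + μ (b j) • l, ?_, ?_⟩
      · intro i hi
        rcases Finset.mem_insert.mp hi with rfl | hi
        · have : ((-l (b i)) • μ + μ (b i) • l) (b i) = -l (b i) * μ (b i) + μ (b i) * l (b i) := rfl
          rw [this]
          lia
        · have h1 := hμ i hi
          rw [map_add, map_zsmul, map_zsmul, smul_eq_mul, smul_eq_mul] at h1
          have : ((-l (b j)) • μ + μ (b j) • l) (b i) = -l (b j) * μ (b i) + μ (b j) * l (b i) := rfl
          rw [this]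
          linarith [mul_comm (l (b i)) (μ (b j))]
      · rw [map_sub, map_zsmul, map_zsmul, smul_eq_mul, smul_eq_mul] at hμB
        have : ((-l (b j)) • μ + μ (b j) • l) B = -l (b j) * μ B + μ (b j) * l B := rfl
        rw [this]
        linarith [mul_comm (l B) (μ (b j))]

end Pool.Agent.MP_cfacaa_ag.Tor
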