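import Pool.Agent.Lib.MP_cfacaa_ag.Tor.Defs

/-!
Elementary facts about monomials, and a uniform multiple.
-/

namespace Pool.Agent.MP_cfacaa_ag.Tor

open MvPolynomial

variable {ι : Type} [Fintype ι] {r : ℕ}

theorem dg_add (β : ι → Fin r → ℤ) (a b : ι → ℕ) : dg β (a + b) = dg β a + dg β b := by
  simp only [dg, Pi.add_apply, add_smul, Finset.sum_add_distrib]

theorem dg_smul (β : ι → Fin r → ℤ) (n : ℕ) (a : ι → ℕ) : dg β (n • a) = n • dg β a := by
  simp only [dg, Pi.smul_apply, smul_eq_mul, mul_smul, Finset.smul_sum]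

theorem dg_zero (β : ι → Fin r → ℤ) : dg β 0 = 0 := by
  simp [dg]

theorem mo_add {R : Type} [CommSemiring R] (x : ι → R) (a b : ι → ℕ) : mo x (a + b) = mo x a * mo x b := by
  simp only [mo, Pi.add_apply, pow_add, Finset.prod_mul_distrib]

theorem mo_smul {R : Type} [CommSemiring R] (x : ι → R) (n : ℕ) (a : ι → ℕ) : mo x (n • a) = mo x a ^ n := by
  simp only [mo, Pi.smul_apply, smul_eq_mul]
  rw [← Finset.prod_pow]
  refine Finset.prod_congr rfl fun i _ => ?_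
  rw [mul_comm, pow_mul]

theorem mo_zero {R : Type} [CommSemiring R] (x : ι → R) : mo x 0 = 1 := by
  simp [mo]

theorem mo_ne_zero_iff {R : Type} [CommRing R] [IsDomain R] (x : ι → R) (e : ι → ℕ) :
    mo x e ≠ 0 ↔ ∀ i, e i ≠ 0 → x i ≠ 0 := by
  rw [mo, Finset.prod_ne_zero_iff]
  refine ⟨fun h i hi h0 => h i (Finset.mem_univ i) ?_, fun h i _ => ?_⟩
  · rw [h0, zero_pow hi]
  · by_cases hi : e i = 0
    · rw [hi, pow_zero]
      exact one_ne_zero
    · exact pow_ne_zero _ (h i hi)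

theorem map_mo {R T : Type} [CommSemiring R] [CommSemiring T] (f : R →+* T) (x : ι → R) (e : ι → ℕ) :
    f (mo x e) = mo (fun i => f (x i)) e := by
  simp [mo]

/-- The monomial with the exponents `e` as a polynomial. -/
noncomputable def mon (e : ι → ℕ) : MvPolynomial ι ℂ := ∏ i, X i ^ e i

theorem aeval_mon {R : Type} [CommRing R] [Algebra ℂ R] (x : ι → R) (e : ι → ℕ) : aeval x (mon e) = mo x e := by
  simp [mon, mo]

theorem mon_hom (β : ι → Fin r → ℤ) (e : ι → ℕ) : IsWeightedHomogeneous β (mon e) (dg β e) := by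
  unfold mon dg
  exact IsWeightedHomogeneous.prod Finset.univ (fun i => X i ^ e i) (fun i => e i • β i)
    fun i _ => (isWeightedHomogeneous_X ℂ β i).pow (e i)

theorem monomial_eq_mon (d : ι →₀ ℕ) : (monomial d (1 : ℂ) : MvPolynomial ι ℂ) = mon (d : ι → ℕ) := by
  rw [mon, monomial_eq, C_1, one_mul, Finsupp.prod_fintype]
  intro i
  rw [pow_zero]

theorem weight_eq_dg (β : ι → Fin r → ℤ) (d : ι →₀ ℕ) : Finsupp.weight β d = dg β (d : ι → ℕ) := by
  rw [Finsupp.weight_apply, Finsupp.sum_fintype]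
  · rfl
  · intro i
    rw [zero_smul]

/-- A homogeneous polynomial is a combination of monomials of the same degree. -/
theorem hom_mem_span (β : ι → Fin r → ℤ) (B : Fin r → ℤ) (P : MvPolynomial ι ℂ)
    (hP : IsWeightedHomogeneous β P B) :
    P ∈ Submodule.span ℂ (mon '' {e : ι → ℕ | dg β e = B}) := by
  rw [P.as_sum]
  refine Submodule.sum_mem _ fun d hd => ?_
  have h1 : (monomial d (coeff d P) : MvPolynomial ι ℂ) = coeff d P • mon (d : ι → ℕ) := by
    rw [← monomial_eq_mon, smul_monomial, smul_eq_mul, mul_one]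
  rw [h1]
  refine Submodule.smul_mem _ _ (Submodule.subset_span ⟨(d : ι → ℕ), ?_, rfl⟩)
  rw [Set.mem_ofPred_eq, ← weight_eq_dg]
  exact hP (mem_support_iff.mp hd)

/-- Semiample degrees: a uniform multiple. -/
theorem uniform (β : ι → Fin r → ℤ) (C : Set (ι → ℂ)) (B : Fin r → ℤ) (h : ∀ x ∈ C, InK β x B) :
    ∃ m : ℕ, 0 < m ∧ ∀ x ∈ C, ∃ e : ι → ℕ, dg β e = m • B ∧ mo x e ≠ 0 := by
  classical
  have key : ∀ T : Finset ι, ∃ n : ℕ, 0 < n ∧ ((∃ x ∈ C, ∀ i, x i ≠ 0 ↔ i ∈ T) →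
      ∃ e : ι → ℕ, dg β e = n • B ∧ ∀ i, e i ≠ 0 → i ∈ T) := by
    intro T
    by_cases hT : ∃ x ∈ C, ∀ i, x i ≠ 0 ↔ i ∈ T
    · obtain ⟨x, hx, hxT⟩ := hT
      obtain ⟨n, hn, e, he, hxe⟩ := h x hx
      rw [mo_ne_zero_iff] at hxe
      exact ⟨n, hn, fun _ => ⟨e, he, fun i hi => (hxT i).mp (hxe i hi)⟩⟩
    · exact ⟨1, one_pos, fun h => absurd h hT⟩
  choose n hn hne using key
  refine ⟨∏ T, n T, Finset.prod_pos fun T _ => hn T, ?_⟩
  intro x hx
  have hT : ∀ i, x i ≠ 0 ↔ i ∈ Finset.univ.filter fun i => x i ≠ 0 := by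
    intro i
    simp
  obtain ⟨e, he, hes⟩ := hne (Finset.univ.filter fun i => x i ≠ 0) ⟨x, hx, hT⟩
  obtain ⟨c, hc⟩ := Finset.dvd_prod_of_mem n (Finset.mem_univ (Finset.univ.filter fun i => x i ≠ 0))
  refine ⟨c • e, ?_, ?_⟩
  · rw [dg_smul, he, hc, ← mul_smul, mul_comm]
  · rw [mo_smul]
    refine pow_ne_zero _ ((mo_ne_zero_iff x e).mpr fun i hi => ?_)
    exact (hT i).mpr (hes i hi)

end Pool.Agent.MP_cfacaa_ag.Tor
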