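import Pool.Agent.Lib.MP_cfacaa_ag.Tor.A1
import Pool.Agent.Lib.MP_cfacaa_ag.Tor.A5

/-!
Separation by facets.
-/

namespace Pool.Agent.MP_cfacaa_ag.Tor

variable {ι : Type} [Fintype ι] {r : ℕ}

/-- A degree outside of the cone of a point is separated from the cone by a functional (not yet a
facet). -/
theorem exists_sep (β : ι → Fin r → ℤ) (x : ι → ℂ) (B : Fin r → ℤ) (hB : ¬ InK β x B) :
    ∃ ν : (Fin r → ℤ) →+ ℤ, (∀ i, x i ≠ 0 → 0 ≤ ν (β i)) ∧ ν B < 0 := by
  classical
  rcases farkas (Finset.univ.filter fun i => x i ≠ 0) β B with ⟨n, hn, e, he⟩ | ⟨ν, hν, hνB⟩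
  · exfalso
    refine hB ⟨n, hn, fun i => if x i ≠ 0 then e i else 0, ?_, ?_⟩
    · rw [← he, dg, Finset.sum_filter]
      refine Finset.sum_congr rfl fun i _ => ?_
      split_ifs <;> simp
    · rw [mo_ne_zero_iff]
      intro i hi
      by_contra h
      exact hi (if_neg (by simpa using h))
  · exact ⟨ν, fun i hi => hν i (by simpa using hi), hνB⟩

/-- A functional which separates `B` and vanishes on as many degrees as possible. -/
theorem exists_max_sep (β : ι → Fin r → ℤ) (x : ι → ℂ) (B : Fin r → ℤ)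
    (hg : AddSubgroup.closure (β '' {i | x i ≠ 0}) = ⊤) (hB : ¬ InK β x B) :
    ∃ ν : (Fin r → ℤ) →+ ℤ, (∀ i, x i ≠ 0 → 0 ≤ ν (β i)) ∧ ν B < 0 ∧
      ∀ m : (Fin r → ℤ) →+ ℤ, (∀ i, x i ≠ 0 → ν (β i) = 0 → m (β i) = 0) → ν B • m = m B • ν := by
  classical
  set P : ((Fin r → ℤ) →+ ℤ) → Prop := fun ν => (∀ i, x i ≠ 0 → 0 ≤ ν (β i)) ∧ ν B < 0 with hP
  set f : ((Fin r → ℤ) →+ ℤ) → ℕ := fun ν => (Finset.univ.filter fun i => x i ≠ 0 ∧ ν (β i) = 0).card with hf
  obtain ⟨ν, hν, hmax⟩ : ∃ ν, P ν ∧ ∀ ν', P ν' → f ν' ≤ f ν := by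
    have hne : (f '' {ν | P ν}).Nonempty := by
      obtain ⟨ν, hν⟩ := exists_sep β x B hB
      exact ⟨f ν, ν, hν, rfl⟩
    have hbd : BddAbove (f '' {ν | P ν}) := by
      refine ⟨Fintype.card ι, ?_⟩
      rintro _ ⟨ν, _, rfl⟩
      exact Finset.card_le_univ _
    obtain ⟨ν, hν, hν'⟩ := Nat.sSup_mem hne hbd
    refine ⟨ν, hν, fun ν' h' => ?_⟩
    rw [hν']
    exact le_csSup hbd ⟨ν', h', rfl⟩
  refine ⟨ν, hν.1, hν.2, ?_⟩
  -- the main step
  have step : ∀ m : (Fin r → ℤ) →+ ℤ, (∀ i, x i ≠ 0 → ν (β i) = 0 → m (β i) = 0) → m B = 0 →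
      ∀ i, x i ≠ 0 → 0 ≤ m (β i) := by
    intro m hm hmB i0 hi0
    by_contra hneg
    push Not at hneg
    obtain ⟨j, hj, hjmin⟩ := Finset.exists_min_image (Finset.univ.filter fun i => x i ≠ 0 ∧ m (β i) < 0)
      (fun i => (ν (β i) : ℚ) / (-(m (β i)) : ℚ)) ⟨i0, by simp [hi0, hneg]⟩
    rw [Finset.mem_filter] at hj
    obtain ⟨-, hj1, hj2⟩ := hj
    have hP' : P ((-m (β j)) • ν + ν (β j) • m) := by
      refine ⟨fun i hi => ?_, ?_⟩
      · have h1 : ((-m (β j)) • ν + ν (β j) • m) (β i) = -m (β j) * ν (β i) + ν (β j) * m (β i) := rfl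
        rw [h1]
        by_cases hmi : 0 ≤ m (β i)
        · have h2 := hν.1 i hi
          have h3 := hν.1 j hj1
          have h4 : 0 ≤ -m (β j) * ν (β i) := mul_nonneg (by lia) h2
          have h5 : 0 ≤ ν (β j) * m (β i) := mul_nonneg h3 hmi
          lia
        · push Not at hmi
          have h2 := hjmin i (by simp [hi, hmi])
          have hj' : (0 : ℚ) < -(m (β j)) := by
            have : (m (β j) : ℚ) < 0 := by exact_mod_cast hj2
            linarith
          have hi' : (0 : ℚ) < -(m (β i)) := by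
            have : (m (β i) : ℚ) < 0 := by exact_mod_cast hmi
            linarith
          rw [div_le_div_iff₀ hj' hi'] at h2
          have h3 : (ν (β j) : ℤ) * -(m (β i)) ≤ ν (β i) * -(m (β j)) := by exact_mod_cast h2
          linarith [mul_comm (ν (β i)) (m (β j))]
      · have h1 : ((-m (β j)) • ν + ν (β j) • m) B = -m (β j) * ν B + ν (β j) * m B := rfl
        rw [h1, hmB, mul_zero, add_zero]
        exact mul_neg_of_pos_of_neg (by lia) hν.2
    have h1 := hmax _ hP'
    have h2 : f ν < f ((-m (β j)) • ν + ν (β j) • m) := by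
      rw [hf]
      refine Finset.card_lt_card ?_
      rw [Finset.ssubset_iff_of_subset]
      · refine ⟨j, ?_, ?_⟩
        · rw [Finset.mem_filter]
          refine ⟨Finset.mem_univ _, hj1, ?_⟩
          have h1 : ((-m (β j)) • ν + ν (β j) • m) (β j) = -m (β j) * ν (β j) + ν (β j) * m (β j) := rfl
          rw [h1]
          ring
        · rw [Finset.mem_filter]
          rintro ⟨-, -, h⟩
          have := hm j hj1 h
          lia
      · intro i hi
        rw [Finset.mem_filter] at hi ⊢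
        refine ⟨Finset.mem_univ _, hi.2.1, ?_⟩
        have h1 : ((-m (β j)) • ν + ν (β j) • m) (β i) = -m (β j) * ν (β i) + ν (β j) * m (β i) := rfl
        rw [h1, hi.2.2, hm i hi.2.1 hi.2.2]
        ring
    lia
  intro m hm
  have hz : ∀ i, x i ≠ 0 → (ν B • m - m B • ν) (β i) = 0 := by
    have ha : ∀ i, (ν B • m - m B • ν) (β i) = ν B * m (β i) - m B * ν (β i) := fun i => rfl
    have hb : ∀ i, (-(ν B • m - m B • ν)) (β i) = -(ν B * m (β i) - m B * ν (β i)) := fun i => rfl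
    intro i hi
    refine le_antisymm ?_ ?_
    · have h1 := step (-(ν B • m - m B • ν)) (fun i h1 h2 => by rw [hb, h2, hm i h1 h2]; ring)
        (by
          have : (-(ν B • m - m B • ν)) B = -(ν B * m B - m B * ν B) := rfl
          rw [this]
          ring) i hi
      rw [hb] at h1
      rw [ha]
      lia
    · exact step (ν B • m - m B • ν) (fun i h1 h2 => by rw [ha, h2, hm i h1 h2]; ring)
        (by
          have : (ν B • m - m B • ν) B = ν B * m B - m B * ν B := rfl
          rw [this]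
          ring) i hi
  have hk : (⊤ : AddSubgroup (Fin r → ℤ)) ≤ (ν B • m - m B • ν).ker := by
    rw [← hg, AddSubgroup.closure_le]
    rintro _ ⟨i, hi, rfl⟩
    exact hz i hi
  refine sub_eq_zero.mp (AddMonoidHom.ext fun c => ?_)
  exact hk (AddSubgroup.mem_top c)

/-- A degree outside of the cone of a point is separated from the cone by a facet. -/
theorem exists_facet (β : ι → Fin r → ℤ) (x : ι → ℂ) (B : Fin r → ℤ)
    (hg : AddSubgroup.closure (β '' {i | x i ≠ 0}) = ⊤) (hB : ¬ InK β x B) :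
    ∃ l : (Fin r → ℤ) →+ ℤ, Facet β x l ∧ l B < 0 := by
  obtain ⟨ν, hν, hνB, hm⟩ := exists_max_sep β x B hg hB
  obtain ⟨g, hgr⟩ := Int.subgroup_cyclic ν.range
  have hdvd : ∀ c, g ∣ ν c := by
    intro c
    have h1 : ν c ∈ ν.range := ⟨c, rfl⟩
    rw [hgr, ← AddSubgroup.zmultiples_eq_closure, Int.mem_zmultiples_iff] at h1
    exact h1
  obtain ⟨b0, hb0⟩ : ∃ b0, ν b0 = g := by
    have h1 : g ∈ ν.range := by
      rw [hgr]
      exact AddSubgroup.subset_closure rfl
    exact h1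
  obtain ⟨d, hd, hd', b1, hb1⟩ : ∃ d : ℤ, 0 < d ∧ (∀ c, d ∣ ν c) ∧ ∃ b1, ν b1 = d := by
    have hg0 : g ≠ 0 := by
      rintro rfl
      have := hdvd B
      rw [zero_dvd_iff] at this
      lia
    rcases lt_or_gt_of_ne hg0 with h | h
    · exact ⟨-g, by lia, fun c => (neg_dvd).mpr (hdvd c), -b0, by rw [map_neg, hb0]⟩
    · exact ⟨g, h, hdvd, b0, hb0⟩
  let l : (Fin r → ℤ) →+ ℤ :=
    AddMonoidHom.mk' (fun c => ν c / d) fun a b => by
      rw [map_add, Int.add_ediv_of_dvd_left (hd' a)]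
  have hl : ∀ c, ν c = d * l c := fun c => (Int.mul_ediv_cancel' (hd' c)).symm
  have hl1 : l b1 = 1 := by
    have := hl b1
    rw [hb1] at this
    have h2 : d * 1 = d * l b1 := by rw [mul_one]; exact this
    exact (mul_left_cancel₀ hd.ne' h2).symm
  have hlB : l B < 0 := by
    by_contra h
    push Not at h
    have h1 := hl B
    have h2 : 0 ≤ d * l B := mul_nonneg hd.le h
    lia
  refine ⟨l, ⟨?_, ?_, ?_⟩, hlB⟩
  · intro z
    exact ⟨z • b1, by rw [map_zsmul, hl1, smul_eq_mul, mul_one]⟩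
  · intro i hi
    by_contra h
    push Not at h
    have h1 := hl (β i)
    have h2 : d * l (β i) < 0 := mul_neg_of_pos_of_neg hd h
    have h3 := hν i hi
    lia
  · intro m hmz
    have h1 := hm m fun i hi h0 => hmz i hi (by
      have := hl (β i)
      rw [h0] at this
      rcases mul_eq_zero.mp this.symm with h | h
      · exact absurd h hd.ne'
      · exact h)
    refine ⟨m b1, AddMonoidHom.ext fun c => ?_⟩
    have h2 : ν B * m c = m B * ν c := DFunLike.congr_fun h1 c
    have h3 : ν B * m b1 = m B * ν b1 := DFunLike.congr_fun h1 b1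
    have h4 : (m b1 • l) c = m b1 * l c := rfl
    rw [h4]
    rw [hb1] at h3
    rw [hl c] at h2
    have h5 : ν B * m c = ν B * (m b1 * l c) := by
      rw [h2, ← mul_assoc, ← h3]
      ring
    exact mul_left_cancel₀ hνB.ne h5

end Pool.Agent.MP_cfacaa_ag.Tor
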