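import Pool.Agent.Lib.MP_cfacaa_ag.Tor.A1

/-!
A degree on which a facet vanishes has a positive multiple in the span of the coordinates of the facet.
-/

namespace Pool.Agent.MP_cfacaa_ag.Tor

variable {ι : Type} [Fintype ι] {r : ℕ}

/-- A degree `B` with `l B = 0`, `l` a facet: a positive multiple of `B` is the difference of the degrees of two
monomials in the coordinates of the facet. -/
theorem exists_comb (β : ι → Fin r → ℤ) (u : ι → ℂ) (l : (Fin r → ℤ) →+ ℤ) (hl : Facet β u l) (B : Fin r → ℤ)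
    (hB : l B = 0) :
    ∃ h : ℕ, 0 < h ∧ ∃ a c : ι → ℕ, (∀ i, a i ≠ 0 → u i ≠ 0 ∧ l (β i) = 0) ∧
      (∀ i, c i ≠ 0 → u i ≠ 0 ∧ l (β i) = 0) ∧ h • B + dg β c = dg β a := by
  classical
  rcases farkas ((Finset.univ.filter fun i => u i ≠ 0 ∧ l (β i) = 0) ×ˢ (Finset.univ : Finset Bool))
    (fun ib : ι × Bool => if ib.2 then β ib.1 else -β ib.1) B with ⟨n, hn, e, he⟩ | ⟨ν, hν, hνB⟩
  · refine ⟨n, hn, fun i => if u i ≠ 0 ∧ l (β i) = 0 then e (i, true) else 0,
      fun i => if u i ≠ 0 ∧ l (β i) = 0 then e (i, false) else 0, ?_, ?_, ?_⟩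
    · intro i hi
      by_contra h
      exact hi (if_neg h)
    · intro i hi
      by_contra h
      exact hi (if_neg h)
    · rw [← he, Finset.sum_product, dg, dg, ← Finset.sum_filter_add_sum_filter_not Finset.univ
        (fun i => u i ≠ 0 ∧ l (β i) = 0) (fun i => (if u i ≠ 0 ∧ l (β i) = 0 then e (i, false) else 0) • β i),
        ← Finset.sum_filter_add_sum_filter_not Finset.univ
        (fun i => u i ≠ 0 ∧ l (β i) = 0) (fun i => (if u i ≠ 0 ∧ l (β i) = 0 then e (i, true) else 0) • β i)]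
      have h1 : ∀ b : Bool, ∑ i ∈ Finset.univ.filter (fun i => ¬ (u i ≠ 0 ∧ l (β i) = 0)),
          (if u i ≠ 0 ∧ l (β i) = 0 then e (i, b) else 0) • β i = 0 := by
        intro b
        refine Finset.sum_eq_zero fun i hi => ?_
        rw [if_neg (Finset.mem_filter.mp hi).2, zero_smul]
      rw [h1, h1, add_zero, add_zero, ← Finset.sum_add_distrib]
      refine Finset.sum_congr rfl fun i hi => ?_
      rw [if_pos (Finset.mem_filter.mp hi).2, if_pos (Finset.mem_filter.mp hi).2, Fintype.sum_bool]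
      simp
  · exfalso
    have h1 : ∀ i, u i ≠ 0 → l (β i) = 0 → ν (β i) = 0 := by
      intro i hu hli
      have h2 := hν (i, true) (by simp [hu, hli])
      have h3 := hν (i, false) (by simp [hu, hli])
      rw [if_pos rfl] at h2
      simp only [Bool.false_eq_true, if_false, map_neg] at h3
      lia
    obtain ⟨a, ha⟩ := hl.span ν h1
    have h2 : ν B = a * l B := by
      rw [ha]
      rfl
    rw [h2, hB, mul_zero] at hνB
    exact lt_irrefl _ hνB

end Pool.Agent.MP_cfacaa_ag.Tor
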