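import Pool.Agent.Lib.MP_cfacaa_ag.Tor.A2

/-!
The extremal wall.
-/

namespace Pool.Agent.MP_cfacaa_ag.Tor

variable {ι κ : Type} [Fintype ι] [Fintype κ] {r : ℕ}

theorem map_dg (β : ι → Fin r → ℤ) (l : (Fin r → ℤ) →+ ℤ) (e : ι → ℕ) : l (dg β e) = ∑ i, (e i : ℤ) * l (β i) := by
  rw [dg, map_sum]
  refine Finset.sum_congr rfl fun i _ => ?_
  rw [map_nsmul, nsmul_eq_mul]

/-- Facets are nonnegative on the degrees of the monomials which do not vanish. -/
theorem Facet.dg_nonneg {β : ι → Fin r → ℤ} {x : ι → ℂ} {l : (Fin r → ℤ) →+ ℤ} (hl : Facet β x l) {e : ι → ℕ}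
    (he : mo x e ≠ 0) : 0 ≤ l (dg β e) := by
  rw [map_dg]
  refine Finset.sum_nonneg fun i _ => ?_
  by_cases hi : e i = 0
  · rw [hi]
    simp
  · exact mul_nonneg (Int.natCast_nonneg _) (hl.nonneg i ((mo_ne_zero_iff x e).mp he i hi))

/-- Facets are positive on the polarization. -/
theorem Facet.pos {S : Sys ι κ r} (hS : S.Good) {x : ι → ℂ} (hx : x ∈ S.cone) {l : (Fin r → ℤ) →+ ℤ}
    (hl : Facet S.β x l) : 0 < l S.A := by
  obtain ⟨b, hb⟩ := hl.surj 1
  obtain ⟨n, hn, N, hN, e, he, hxe⟩ := hS.stable x hx (-b)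
  have h1 := hl.dg_nonneg hxe
  rw [he, map_nsmul, map_add, map_nsmul, map_neg, hb, nsmul_eq_mul, nsmul_eq_mul] at h1
  by_contra h
  push Not at h
  have h2 : (n : ℤ) * l S.A ≤ 0 := mul_nonpos_of_nonneg_of_nonpos (Int.natCast_nonneg _) h
  have h3 : (N : ℤ) * ((n : ℤ) * l S.A + -1) < 0 :=
    mul_neg_of_pos_of_neg (by exact_mod_cast hN) (by lia)
  lia

/-- There are only finitely many facets. -/
theorem finite_facets {S : Sys ι κ r} (hS : S.Good) :
    {l : (Fin r → ℤ) →+ ℤ | ∃ x ∈ S.cone, Facet S.β x l}.Finite := by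
  classical
  have hinj : Set.InjOn (fun l : (Fin r → ℤ) →+ ℤ => if h : ∃ x ∈ S.cone, Facet S.β x l then
      Finset.univ.filter (fun i => h.choose i ≠ 0 ∧ l (S.β i) = 0) else (∅ : Finset ι))
      {l | ∃ x ∈ S.cone, Facet S.β x l} := by
    intro l hl l' hl' hll
    have hl0 : ∃ x ∈ S.cone, Facet S.β x l := hl
    have hl0' : ∃ x ∈ S.cone, Facet S.β x l' := hl'
    simp only [dif_pos hl0, dif_pos hl0'] at hll
    obtain ⟨hx, hf⟩ := hl0.choose_spec
    obtain ⟨hx', hf'⟩ := hl0'.choose_spec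
    obtain ⟨a, ha⟩ := hf.span l' fun i h1 h2 => by
      have : i ∈ Finset.univ.filter (fun i => hl0.choose i ≠ 0 ∧ l (S.β i) = 0) := by
        rw [Finset.mem_filter]
        exact ⟨Finset.mem_univ _, h1, h2⟩
      rw [hll, Finset.mem_filter] at this
      exact this.2.2
    obtain ⟨b, hb⟩ := hf'.span l fun i h1 h2 => by
      have : i ∈ Finset.univ.filter (fun i => hl0'.choose i ≠ 0 ∧ l' (S.β i) = 0) := by
        rw [Finset.mem_filter]
        exact ⟨Finset.mem_univ _, h1, h2⟩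
      rw [← hll, Finset.mem_filter] at this
      exact this.2.2
    have h1 : 0 < l S.A := hf.pos hS hx
    have h2 : 0 < l' S.A := hf'.pos hS hx'
    have h3 : l' S.A = a * l S.A := DFunLike.congr_fun ha S.A
    have h4 : l S.A = b * l' S.A := DFunLike.congr_fun hb S.A
    have h5 : 0 < a := by
      by_contra h
      push Not at h
      have := mul_nonpos_of_nonpos_of_nonneg h h1.le
      lia
    have h6 : 0 < b := by
      by_contra h
      push Not at h
      have := mul_nonpos_of_nonpos_of_nonneg h h2.le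
      lia
    have h7 : b * a = 1 := by
      have h8 : l S.A * (b * a) = l S.A * 1 := by
        rw [mul_one]
        conv_rhs => rw [h4, h3]
        ring
      exact mul_left_cancel₀ h1.ne' h8
    have h8 : a = 1 := by
      have := Int.le_of_dvd one_pos (Dvd.intro_left b h7)
      lia
    rw [ha, h8, one_smul]
  exact Set.Finite.of_finite_image (Set.toFinite _) hinj

/-- If `D` is not semiample at some point, there is a wall `l` such that the corresponding combination of `A` and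
`D` is semiample everywhere. -/
theorem extremal {S : Sys ι κ r} (hS : S.Good) (D : Fin r → ℤ) (h : ∃ x ∈ S.cone, ¬ InK S.β x D) :
    ∃ (l : (Fin r → ℤ) →+ ℤ) (p q : ℕ), (∃ x ∈ S.cone, Facet S.β x l) ∧ 0 < p ∧ 0 < q ∧ l D = -(p : ℤ) ∧
      l S.A = q ∧ ∀ x ∈ S.cone, InK S.β x (p • S.A + q • D) := by
  have hfin : {l : (Fin r → ℤ) →+ ℤ | (∃ x ∈ S.cone, Facet S.β x l) ∧ l D < 0}.Finite :=
    (finite_facets hS).subset fun l hl => hl.1
  have hne : {l : (Fin r → ℤ) →+ ℤ | (∃ x ∈ S.cone, Facet S.β x l) ∧ l D < 0}.Nonempty := by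
    obtain ⟨x, hx, hxD⟩ := h
    obtain ⟨l, hl, hlD⟩ := exists_facet S.β x D (hS.free x hx) hxD
    exact ⟨l, ⟨x, hx, hl⟩, hlD⟩
  obtain ⟨l, ⟨⟨x, hx, hl⟩, hlD⟩, hmax⟩ := Set.exists_max_image _
    (fun l : (Fin r → ℤ) →+ ℤ => (-(l D) : ℚ) / (l S.A : ℚ)) hfin hne
  have hlA := hl.pos hS hx
  refine ⟨l, (-(l D)).toNat, (l S.A).toNat, ⟨x, hx, hl⟩, by lia, by lia, by lia, by lia, ?_⟩
  intro y hy
  by_contra hcon
  obtain ⟨l', hl', hneg⟩ := exists_facet S.β y _ (hS.free y hy) hcon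
  have hA' := hl'.pos hS hy
  rw [map_add, map_nsmul, map_nsmul, nsmul_eq_mul, nsmul_eq_mul] at hneg
  have h1 : (((-(l D)).toNat : ℕ) : ℤ) = -(l D) := Int.toNat_of_nonneg (by lia)
  have h2 : (((l S.A).toNat : ℕ) : ℤ) = l S.A := Int.toNat_of_nonneg (by lia)
  rw [h1, h2] at hneg
  have h3 : l' D < 0 := by
    by_contra h
    push Not at h
    have h4 := mul_nonneg hlA.le h
    have h5 : 0 ≤ -(l D) * l' S.A := mul_nonneg (by lia) hA'.le
    lia
  have h4 := hmax l' ⟨⟨y, hy, hl'⟩, h3⟩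
  have h5 : (0 : ℚ) < (l S.A : ℚ) := by exact_mod_cast hlA
  have h6 : (0 : ℚ) < (l' S.A : ℚ) := by exact_mod_cast hA'
  rw [div_le_div_iff₀ h6 h5] at h4
  have h7 : -(l' D) * l S.A ≤ -(l D) * l' S.A := by exact_mod_cast h4
  linarith [mul_comm (l' D) (l S.A)]

end Pool.Agent.MP_cfacaa_ag.Tor
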