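import Pool.Agent.Lib.MP_cfacaa_ag.Tor.A5

/-!
Gordan's lemma and Dickson's lemma for the monomials whose degrees are multiples of `A`.
-/

namespace Pool.Agent.MP_cfacaa_ag.Tor

variable {ι : Type} [Fintype ι] {r : ℕ}

/-- There are only finitely many monomials of a given degree. -/
theorem finite_degree (β : ι → Fin r → ℤ) (hp : ∀ e, dg β e = 0 → e = 0) (B : Fin r → ℤ) :
    {e : ι → ℕ | dg β e = B}.Finite := by
  refine IsAntichain.finite_of_partiallyWellOrderedOn (r := (· ≤ ·)) ?_ (Set.isPWO_of_wellQuasiOrderedLE _)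
  intro a ha b hb hab hle
  obtain ⟨c, hc⟩ := exists_add_of_le hle
  have ha' : dg β a = B := ha
  have hb' : dg β b = B := hb
  rw [hc, dg_add, ha'] at hb'
  have h1 : dg β c = 0 := by
    simpa using hb'
  rw [hp c h1, add_zero] at hc
  exact hab hc.symm

/-- The indecomposable monomials whose degrees are multiples of `A`. -/
theorem gordan_gen (β : ι → Fin r → ℤ) (hp : ∀ e, dg β e = 0 → e = 0) (A : Fin r → ℤ) (hA : A ≠ 0) :
    ∃ G : Finset (ι → ℕ), (∀ g ∈ G, ∃ n : ℕ, 0 < n ∧ dg β g = n • A) ∧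
      ∀ (N : ℕ) (e : ι → ℕ), ∑ i, e i = N → (∃ n : ℕ, dg β e = n • A) →
        ∃ a : (ι → ℕ) → ℕ, e = ∑ g ∈ G, a g • g := by
  classical
  set T : Set (ι → ℕ) := {e | (e ≠ 0 ∧ ∃ n : ℕ, dg β e = n • A) ∧
    ∀ e', (e' ≠ 0 ∧ ∃ n : ℕ, dg β e' = n • A) → e' ≤ e → e' = e} with hT
  have hfin : T.Finite := by
    refine IsAntichain.finite_of_partiallyWellOrderedOn (r := (· ≤ ·)) ?_ (Set.isPWO_of_wellQuasiOrderedLE _)
    intro a ha b hb hab hle
    exact hab (hb.2 a ha.1 hle)
  have hpos : ∀ g : ι → ℕ, g ≠ 0 → ∀ n : ℕ, dg β g = n • A → 0 < n := by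
    intro g hg n hn
    rcases Nat.eq_zero_or_pos n with h | h
    · rw [h, zero_smul] at hn
      exact absurd (hp g hn) hg
    · exact h
  have hmin : ∀ (N : ℕ) (e : ι → ℕ), ∑ i, e i = N → (e ≠ 0 ∧ ∃ n : ℕ, dg β e = n • A) → ∃ g ∈ T, g ≤ e := by
    intro N
    induction N using Nat.strong_induction_on with
    | _ N ih =>
      intro e heN he
      by_cases h : ∀ e', (e' ≠ 0 ∧ ∃ n : ℕ, dg β e' = n • A) → e' ≤ e → e' = e
      · exact ⟨e, ⟨he, h⟩, le_rfl⟩
      · push Not at h
        obtain ⟨e', he', hle, hne⟩ := h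
        have hlt : ∑ i, e' i < N := by
          rw [← heN]
          obtain ⟨j, hj⟩ : ∃ j, e' j ≠ e j := by
            by_contra hcon
            push Not at hcon
            exact hne (funext hcon)
          exact Finset.sum_lt_sum (fun i _ => hle i) ⟨j, Finset.mem_univ j, lt_of_le_of_ne (hle j) hj⟩
        obtain ⟨g, hg, hge⟩ := ih _ hlt e' rfl he'
        exact ⟨g, hg, hge.trans hle⟩
  refine ⟨hfin.toFinset, ?_, ?_⟩
  · intro g hg
    rw [Set.Finite.mem_toFinset] at hg
    obtain ⟨n, hn⟩ := hg.1.2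
    exact ⟨n, hpos g hg.1.1 n hn, hn⟩
  · intro N
    induction N using Nat.strong_induction_on with
    | _ N ih =>
      intro e heN he
      by_cases h0 : e = 0
      · exact ⟨0, by simp [h0]⟩
      obtain ⟨g, hg, hge⟩ := hmin N e heN ⟨h0, he⟩
      obtain ⟨c, hc⟩ := exists_add_of_le hge
      obtain ⟨n, hn⟩ := he
      obtain ⟨m, hm⟩ := hg.1.2
      have hm0 := hpos g hg.1.1 m hm
      have hc1 : dg β c = (n : ℤ) • A - (m : ℤ) • A := by
        rw [hc, dg_add, hm] at hn
        rw [natCast_zsmul, natCast_zsmul, ← hn]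
        abel
      have hle : m ≤ n := by
        by_contra hlt
        push Not at hlt
        obtain ⟨k, hk⟩ := Nat.exists_eq_add_of_lt hlt
        have h1 : dg β (m • c + (k + 1) • g) = 0 := by
          rw [dg_add, dg_smul, dg_smul, hc1, hm, ← natCast_zsmul, ← natCast_zsmul, ← natCast_zsmul, ← sub_smul,
            smul_smul, smul_smul, ← add_smul]
          have : (m : ℤ) * ((n : ℤ) - m) + ((k + 1 : ℕ) : ℤ) * m = 0 := by
            have : (m : ℤ) = n + k + 1 := by exact_mod_cast hk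
            push_cast
            rw [this]
            ring
          rw [this, zero_smul]
        have h2 := hp _ h1
        apply hg.1.1
        funext i
        have h3 := congrFun h2 i
        simp only [Pi.add_apply, Pi.smul_apply, smul_eq_mul, Pi.zero_apply, Nat.add_eq_zero_iff, mul_eq_zero] at h3
        rcases h3.2 with h4 | h4
        · lia
        · exact h4
      have hc2 : ∃ n' : ℕ, dg β c = n' • A := by
        refine ⟨n - m, ?_⟩
        rw [hc1, ← sub_smul, ← natCast_zsmul, Nat.cast_sub hle]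
      have hlt : ∑ i, c i < N := by
        rw [← heN, hc]
        simp only [Pi.add_apply, Finset.sum_add_distrib]
        have : 0 < ∑ i, g i := by
          rw [Nat.pos_iff_ne_zero]
          intro h
          rw [Finset.sum_eq_zero_iff] at h
          exact hg.1.1 (funext fun i => h i (Finset.mem_univ i))
        lia
      obtain ⟨a, ha⟩ := ih _ hlt c rfl hc2
      refine ⟨fun x => a x + if x = g then 1 else 0, ?_⟩
      have hgT : g ∈ hfin.toFinset := by
        rw [Set.Finite.mem_toFinset]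
        exact hg
      simp only [add_smul, Finset.sum_add_distrib, ite_smul, one_smul, zero_smul, Finset.sum_ite_eq', if_pos hgT]
      rw [← ha, hc, add_comm]

/-- Finitely many monomials `g` of degrees `n • A`, `n > 0`, such that for all `k` every monomial of degree `n • A`
with `n` large is divisible by `g ^ k` for some of them. -/
theorem gordan (β : ι → Fin r → ℤ) (hp : ∀ e, dg β e = 0 → e = 0) (A : Fin r → ℤ) (hA : A ≠ 0) :
    ∃ G : Finset (ι → ℕ), (∀ g ∈ G, ∃ n : ℕ, 0 < n ∧ dg β g = n • A) ∧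
      ∀ k : ℕ, ∃ n0 : ℕ, ∀ n : ℕ, n0 ≤ n → ∀ e : ι → ℕ, dg β e = n • A → ∃ g ∈ G, k • g ≤ e := by
  classical
  obtain ⟨G, hG, hgen⟩ := gordan_gen β hp A hA
  refine ⟨G, hG, ?_⟩
  choose! d hd hdg using hG
  intro k
  refine ⟨∑ g ∈ G, k * d g + 1, ?_⟩
  intro n hn e he
  obtain ⟨a, ha⟩ := hgen _ e rfl ⟨n, he⟩
  have h1 : dg β e = (∑ g ∈ G, a g * d g) • A := by
    have h2 : dg β (∑ g ∈ G, a g • g) = ∑ g ∈ G, dg β (a g • g) := by
      simp only [dg, Finset.sum_apply, Finset.sum_smul]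
      rw [Finset.sum_comm]
    rw [ha, h2, Finset.sum_smul]
    refine Finset.sum_congr rfl fun g hg => ?_
    rw [dg_smul, hdg g hg, mul_smul]
  have h2 : n = ∑ g ∈ G, a g * d g := by
    rw [he] at h1
    have h3 : ((n : ℤ) - (∑ g ∈ G, a g * d g : ℕ)) • A = 0 := by
      rw [sub_smul, natCast_zsmul, natCast_zsmul, h1, sub_self]
    rcases smul_eq_zero.mp h3 with h | h
    · have : (n : ℤ) = (∑ g ∈ G, a g * d g : ℕ) := sub_eq_zero.mp h
      exact_mod_cast this
    · exact absurd h hA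
  obtain ⟨g, hg, hk⟩ : ∃ g ∈ G, k ≤ a g := by
    by_contra hcon
    push Not at hcon
    have : ∑ g ∈ G, a g * d g ≤ ∑ g ∈ G, k * d g :=
      Finset.sum_le_sum fun g hg => Nat.mul_le_mul_right _ (hcon g hg).le
    lia
  refine ⟨g, hg, ?_⟩
  rw [ha]
  refine le_trans ?_ (Finset.single_le_sum (f := fun g => a g • g) (fun _ _ => bot_le) hg)
  intro i
  exact Nat.mul_le_mul_right _ hk

end Pool.Agent.MP_cfacaa_ag.Tor
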