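import Pool.Agent.Lib.MP_cfacaa_ag.Tor.A5

/-!
Homogeneous elements of ideals with homogeneous generators.
-/

namespace Pool.Agent.MP_cfacaa_ag.Tor

open MvPolynomial

variable {ι : Type} [Fintype ι] {r : ℕ}

/-- The homogeneous component of a product with a homogeneous factor. -/
theorem component_mul (β : ι → Fin r → ℤ) (c H : MvPolynomial ι ℂ) (η B : Fin r → ℤ)
    (hH : IsWeightedHomogeneous β H η) :
    weightedHomogeneousComponent β B (c * H) = weightedHomogeneousComponent β (B - η) c * H := by
  classical
  induction c using MvPolynomial.induction_on' with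
  | monomial d a =>
    have hm : IsWeightedHomogeneous β (monomial d a * H) (Finsupp.weight β d + η) :=
      (isWeightedHomogeneous_monomial β d a rfl).mul hH
    have hm' : IsWeightedHomogeneous β (monomial d a) (Finsupp.weight β d) :=
      isWeightedHomogeneous_monomial β d a rfl
    by_cases h : Finsupp.weight β d + η = B
    · rw [weightedHomogeneousComponent_of_mem (n := Finsupp.weight β d + η) hm, if_pos h.symm,
        weightedHomogeneousComponent_of_mem (n := Finsupp.weight β d) hm', if_pos]
      rw [← h]
      abel
    · rw [weightedHomogeneousComponent_of_mem (n := Finsupp.weight β d + η) hm, if_neg (fun h' => h h'.symm),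
        weightedHomogeneousComponent_of_mem (n := Finsupp.weight β d) hm', if_neg, zero_mul]
      intro h'
      apply h
      rw [← h']
      abel
  | add p q hp hq =>
    rw [add_mul, map_add, map_add, hp, hq, add_mul]

/-- A homogeneous element of the ideal generated by homogeneous `H t`, `t : τ`, is a combination of the `H t` with
homogeneous coefficients of the right degrees. -/
theorem mem_span_hom (β : ι → Fin r → ℤ) {τ : Type} (H : τ → MvPolynomial ι ℂ) (η : τ → Fin r → ℤ)
    (hH : ∀ t, IsWeightedHomogeneous β (H t) (η t)) (M : MvPolynomial ι ℂ) (B : Fin r → ℤ)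
    (hM : IsWeightedHomogeneous β M B) (hMH : M ∈ Ideal.span (Set.range H)) :
    ∃ (s : Finset τ) (b : τ → MvPolynomial ι ℂ), (∀ t, IsWeightedHomogeneous β (b t) (B - η t)) ∧
      M = ∑ t ∈ s, b t * H t := by
  classical
  rw [Ideal.span, Finsupp.mem_span_range_iff_exists_finsupp] at hMH
  obtain ⟨c, hc⟩ := hMH
  refine ⟨c.support, fun t => weightedHomogeneousComponent β (B - η t) (c t), ?_, ?_⟩
  · intro t
    exact weightedHomogeneousComponent_isWeightedHomogeneous _ _
  · have h1 : weightedHomogeneousComponent β B M = M := weightedHomogeneousComponent_eq_self hM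
    rw [← h1, ← hc, Finsupp.sum, map_sum]
    refine Finset.sum_congr rfl fun t _ => ?_
    rw [smul_eq_mul]
    exact component_mul β (c t) (H t) (η t) B (hH t)

end Pool.Agent.MP_cfacaa_ag.Tor
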