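import Pool.Agent.Lib.MP_cfacaa_ag.Tor.B1
import Pool.Agent.Lib.MP_cfacaa_ag.Tor.B2

/-!
Regular functions of degree zero on a projective zero set preserve the polynomials of large degree.
-/

namespace Pool.Agent.MP_cfacaa_ag.Tor

open MvPolynomial

variable {ι : Type} [Fintype ι] {r : ℕ}

/-- The common zeros of the `H t` which are semistable with respect to `A`. -/
def Zs (β : ι → Fin r → ℤ) (A : Fin r → ℤ) {τ : Type} (H : τ → MvPolynomial ι ℂ) : Set (ι → ℂ) :=
  {x | (∀ t, aeval x (H t) = 0) ∧ InK β x A}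

/-- `h` is on `Φ` locally a quotient `P / Q` of homogeneous polynomials of the same degree. -/
def Loc (β : ι → Fin r → ℤ) (Φ : Set (ι → ℂ)) (h : (ι → ℂ) → ℂ) : Prop :=
  ∀ x ∈ Φ, ∃ (q : Fin r → ℤ) (P Q : MvPolynomial ι ℂ), IsWeightedHomogeneous β P q ∧
    IsWeightedHomogeneous β Q q ∧ aeval x Q ≠ 0 ∧ ∀ y ∈ Φ, aeval y Q ≠ 0 → h y * aeval y Q = aeval y P

theorem mon_add (a b : ι → ℕ) : (mon (a + b) : MvPolynomial ι ℂ) = mon a * mon b := by
  simp only [mon, Pi.add_apply, pow_add, Finset.prod_mul_distrib]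

theorem mon_smul (k : ℕ) (a : ι → ℕ) : (mon (k • a) : MvPolynomial ι ℂ) = mon a ^ k := by
  simp only [mon, Pi.smul_apply, smul_eq_mul]
  rw [← Finset.prod_pow]
  refine Finset.prod_congr rfl fun i _ => ?_
  rw [mul_comm, pow_mul]

theorem mul_stable (β : ι → Fin r → ℤ) (hp : ∀ e, dg β e = 0 → e = 0) (A : Fin r → ℤ) (hA : A ≠ 0) {τ : Type}
    (H : τ → MvPolynomial ι ℂ) (η : τ → Fin r → ℤ) (hH : ∀ t, IsWeightedHomogeneous β (H t) (η t))
    (h : (ι → ℂ) → ℂ) (hh : Loc β (Zs β A H) h) :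
    ∃ n0 : ℕ, ∀ n : ℕ, n0 ≤ n → ∀ g : MvPolynomial ι ℂ, IsWeightedHomogeneous β g (n • A) →
      ∃ g' : MvPolynomial ι ℂ, IsWeightedHomogeneous β g' (n • A) ∧ ∀ x ∈ Zs β A H, h x * aeval x g = aeval x g' := by
  classical
  have hh' : ∀ x : Zs β A H, ∃ (q : Fin r → ℤ) (P Q : MvPolynomial ι ℂ), IsWeightedHomogeneous β P q ∧
    IsWeightedHomogeneous β Q q ∧ aeval x.1 Q ≠ 0 ∧
      ∀ y ∈ Zs β A H, aeval y Q ≠ 0 → h y * aeval y Q = aeval y P := fun x => hh x.1 x.2
  choose q P Q hP hQ hQx hPQ using hh'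
  set H' : τ ⊕ Zs β A H → MvPolynomial ι ℂ := Sum.elim H (fun x => Q x * Q x) with hH'
  have hhom : ∀ t, IsWeightedHomogeneous β (H' t) (Sum.elim η (fun x => q x + q x) t) := by
    rintro (t | x)
    · exact hH t
    · exact (hQ x).mul (hQ x)
  obtain ⟨G, hG, hdiv⟩ := gordan β hp A hA
  -- the monomials in `G` are in the radical
  have hrad : ∀ g ∈ G, ∃ k : ℕ, (mon g : MvPolynomial ι ℂ) ^ k ∈ Ideal.span (Set.range H') := by
    intro g hg
    have h1 : (mon g : MvPolynomial ι ℂ) ∈ (Ideal.span (Set.range H')).radical := by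
      rw [← MvPolynomial.vanishingIdeal_zeroLocus_eq_radical (K := ℂ), mem_vanishingIdeal_iff]
      intro x hx
      rw [mem_zeroLocus_iff] at hx
      by_contra hne
      have hz : x ∈ Zs β A H := by
        refine ⟨fun t => hx _ (Ideal.subset_span ⟨Sum.inl t, rfl⟩), ?_⟩
        obtain ⟨n, hn, hdg⟩ := hG g hg
        rw [aeval_mon] at hne
        exact ⟨n, hn, g, hdg, hne⟩
      have h2 := hx _ (Ideal.subset_span ⟨Sum.inr ⟨x, hz⟩, rfl⟩)
      have h3 : aeval x (Q ⟨x, hz⟩) * aeval x (Q ⟨x, hz⟩) = 0 := by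
        rw [← map_mul]
        exact h2
      exact hQx ⟨x, hz⟩ (mul_self_eq_zero.mp h3)
    exact h1
  choose! k hk using hrad
  obtain ⟨n0, hn0⟩ := hdiv (∑ g ∈ G, k g)
  refine ⟨n0, fun n hn g hg => ?_⟩
  have hmon : ∀ e : ι → ℕ, dg β e = n • A → (mon e : MvPolynomial ι ℂ) ∈ Ideal.span (Set.range H') := by
    intro e he
    obtain ⟨g, hgG, hle⟩ := hn0 n hn e he
    obtain ⟨c, hc⟩ := exists_add_of_le hle
    rw [hc, mon_add, mon_smul]
    refine Ideal.mul_mem_right _ _ ?_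
    obtain ⟨d, hd⟩ := Nat.exists_eq_add_of_le (Finset.single_le_sum (f := k) (fun _ _ => Nat.zero_le _) hgG)
    rw [hd, pow_add]
    exact Ideal.mul_mem_right _ _ (hk g hgG)
  have hgJ : g ∈ Ideal.span (Set.range H') := by
    have h1 := hom_mem_span β (n • A) g hg
    have h2 : Submodule.span ℂ (mon '' {e : ι → ℕ | dg β e = n • A}) ≤
        (Ideal.span (Set.range H')).restrictScalars ℂ := by
      rw [Submodule.span_le]
      rintro _ ⟨e, he, rfl⟩
      exact hmon e he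
    exact h2 h1
  obtain ⟨s, b, hb, hgs⟩ := mem_span_hom β H' _ hhom g (n • A) hg hgJ
  refine ⟨∑ t ∈ s, Sum.elim (fun _ => 0) (fun x => b (Sum.inr x) * (P x * Q x)) t, ?_, ?_⟩
  · refine IsWeightedHomogeneous.sum _ _ _ ?_
    rintro (t | x) -
    · exact isWeightedHomogeneous_zero ℂ β _
    · have h1 := (hb (Sum.inr x)).mul ((hP x).mul (hQ x))
      simp only [Sum.elim_inr, sub_add_cancel] at h1 ⊢
      exact h1
  · intro y hy
    conv_lhs => rw [hgs]
    rw [map_sum, map_sum, Finset.mul_sum]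
    refine Finset.sum_congr rfl ?_
    rintro (t | x) -
    · have h1 : aeval y (H' (Sum.inl t)) = 0 := hy.1 t
      rw [map_mul, h1, mul_zero, mul_zero, Sum.elim_inl, map_zero]
    · have h1 : aeval y (H' (Sum.inr x)) = aeval y (Q x) * aeval y (Q x) := by
        rw [← map_mul]
        rfl
      rw [map_mul, h1, Sum.elim_inr, map_mul, map_mul]
      by_cases h0 : aeval y (Q x) = 0
      · rw [h0]
        ring
      · rw [← hPQ x y hy h0]
        ring

end Pool.Agent.MP_cfacaa_ag.Tor
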