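import Pool.Agent.Lib.MP_cfacaa_ag.Tor.B3

/-!
Regular functions of degree zero on a projective zero set take only finitely many values.
-/

namespace Pool.Agent.MP_cfacaa_ag.Tor

open MvPolynomial

variable {ι : Type} [Fintype ι] {r : ℕ}

/-- A function which preserves, by multiplication, a finite dimensional space of functions without common zero, takes
only finitely many values. -/
theorem finite_of_stable {Z : Type} (N : Submodule ℂ (Z → ℂ)) [FiniteDimensional ℂ N] (h : Z → ℂ)
    (hN : ∀ f ∈ N, h * f ∈ N) (hz : ∀ z, ∃ f ∈ N, f z ≠ 0) : ∃ T : Finset ℂ, ∀ z, h z ∈ T := by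
  classical
  let T : Module.End ℂ N := (LinearMap.mulLeft ℂ h).restrict (p := N) (q := N) fun f hf => hN f hf
  have hT : ∀ (f : N) (z : Z), (T f : Z → ℂ) z = h z * (f : Z → ℂ) z := fun f z => rfl
  have hpow : ∀ (n : ℕ) (f : N) (z : Z), ((T ^ n) f : Z → ℂ) z = h z ^ n * (f : Z → ℂ) z := by
    intro n
    induction n with
    | zero =>
      intro f z
      rw [pow_zero, pow_zero, one_mul]
      rfl
    | succ n ih =>
      intro f z
      rw [pow_succ, Module.End.mul_apply, ih, hT, pow_succ, mul_assoc]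
  have hpol : ∀ (p : Polynomial ℂ) (f : N) (z : Z),
      ((Polynomial.aeval T p) f : Z → ℂ) z = p.eval (h z) * (f : Z → ℂ) z := by
    intro p f z
    induction p using Polynomial.induction_on' with
    | add p q hp hq =>
      rw [map_add, LinearMap.add_apply, Submodule.coe_add, Pi.add_apply, hp, hq, Polynomial.eval_add, add_mul]
    | monomial n a =>
      rw [Polynomial.aeval_monomial, Module.End.mul_apply, Module.algebraMap_end_apply, Submodule.coe_smul,
        Pi.smul_apply, hpow, Polynomial.eval_monomial, smul_eq_mul, mul_assoc]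
  refine ⟨(minpoly ℂ T).roots.toFinset, fun z => ?_⟩
  have hint : IsIntegral ℂ T := Algebra.IsIntegral.isIntegral T
  rw [Multiset.mem_toFinset, Polynomial.mem_roots (minpoly.ne_zero hint)]
  obtain ⟨f, hf, hfz⟩ := hz z
  have h1 := hpol (minpoly ℂ T) ⟨f, hf⟩ z
  have h0 : Polynomial.aeval T (minpoly ℂ T) = 0 := minpoly.aeval ℂ T
  rw [h0, LinearMap.zero_apply] at h1
  have h2 : (minpoly ℂ T).eval (h z) * f z = 0 := h1.symm
  rcases mul_eq_zero.mp h2 with h3 | h3
  · exact h3
  · exact absurd h3 hfz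

theorem finite_values (β : ι → Fin r → ℤ) (hp : ∀ e, dg β e = 0 → e = 0) (A : Fin r → ℤ) (hA : A ≠ 0) {τ : Type}
    (H : τ → MvPolynomial ι ℂ) (η : τ → Fin r → ℤ) (hH : ∀ t, IsWeightedHomogeneous β (H t) (η t))
    (h : (ι → ℂ) → ℂ) (hh : Loc β (Zs β A H) h) :
    ∃ T : Finset ℂ, ∀ x ∈ Zs β A H, h x ∈ T := by
  classical
  obtain ⟨n0, hn0⟩ := mul_stable β hp A hA H η hH h hh
  obtain ⟨m, hm, hmon⟩ := uniform β (Zs β A H) A fun x hx => hx.2
  set n : ℕ := (n0 + 1) * m with hn
  have hle : n0 ≤ n := by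
    have := Nat.le_mul_of_pos_right (n0 + 1) hm
    lia
  let res : MvPolynomial ι ℂ →ₗ[ℂ] (Zs β A H → ℂ) :=
    LinearMap.pi fun x => (aeval x.1 : MvPolynomial ι ℂ →ₐ[ℂ] ℂ).toLinearMap
  have hres : ∀ (g : MvPolynomial ι ℂ) (x : Zs β A H), res g x = aeval x.1 g := fun g x => rfl
  have hspan : weightedHomogeneousSubmodule ℂ β (n • A) = Submodule.span ℂ (mon '' {e : ι → ℕ | dg β e = n • A}) := by
    refine le_antisymm (fun g hg => hom_mem_span β (n • A) g hg) ?_
    rw [Submodule.span_le]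
    rintro _ ⟨e, he, rfl⟩
    have h1 := mon_hom β e
    rw [show dg β e = n • A from he] at h1
    exact h1
  have hfd : FiniteDimensional ℂ (weightedHomogeneousSubmodule ℂ β (n • A)) := by
    rw [hspan]
    exact FiniteDimensional.span_of_finite ℂ ((finite_degree β hp (n • A)).image _)
  obtain ⟨T, hT⟩ := finite_of_stable ((weightedHomogeneousSubmodule ℂ β (n • A)).map res)
    (fun x : Zs β A H => h x.1) (by
      rintro _ ⟨g, hg, rfl⟩
      obtain ⟨g', hg', hgg⟩ := hn0 n hle g hg
      refine ⟨g', hg', funext fun x => ?_⟩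
      rw [hres, ← hgg x.1 x.2]
      rfl) (by
      intro x
      obtain ⟨e, he, hxe⟩ := hmon x.1 x.2
      refine ⟨res (mon ((n0 + 1) • e)), ⟨_, ?_, rfl⟩, ?_⟩
      · have h1 := mon_hom β ((n0 + 1) • e)
        rw [dg_smul, he, ← mul_smul] at h1
        exact h1
      · rw [hres, aeval_mon, mo_smul]
        exact pow_ne_zero _ hxe)
  exact ⟨T, fun x hx => hT ⟨x, hx⟩⟩

end Pool.Agent.MP_cfacaa_ag.Tor
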