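import Mathlib

/-!
Complex points of finitely generated domains.
-/

namespace Pool.Agent.MP_cfacaa_ag.Tor

/-- A nonzero element of a finitely generated complex domain does not vanish at some complex
point. -/
theorem exists_point {R : Type} [CommRing R] [IsDomain R] [Algebra ℂ R] [Algebra.FiniteType ℂ R] (a : R)
    (ha : a ≠ 0) : ∃ φ : R →ₐ[ℂ] ℂ, φ a ≠ 0 := by
  obtain ⟨n, f, hf⟩ := Algebra.FiniteType.iff_quotient_mvPolynomial''.mp (inferInstance : Algebra.FiniteType ℂ R)
  obtain ⟨P, rfl⟩ := hf a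
  have hprime : (RingHom.ker f).IsPrime := RingHom.ker_isPrime f
  have hP : P ∉ (RingHom.ker f).radical := by
    rw [hprime.radical]
    exact ha
  rw [← MvPolynomial.vanishingIdeal_zeroLocus_eq_radical (K := ℂ), MvPolynomial.mem_vanishingIdeal_iff] at hP
  push Not at hP
  obtain ⟨x, hx, hxP⟩ := hP
  rw [MvPolynomial.mem_zeroLocus_iff] at hx
  let ψ : (MvPolynomial (Fin n) ℂ ⧸ RingHom.ker f) →ₐ[ℂ] ℂ :=
    Ideal.Quotient.liftₐ (RingHom.ker f) (MvPolynomial.aeval x) fun p hp => hx p hp
  refine ⟨ψ.comp (Ideal.quotientKerAlgEquivOfSurjective hf).symm.toAlgHom, ?_⟩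
  have h1 : (Ideal.quotientKerAlgEquivOfSurjective hf).symm (f P) = Ideal.Quotient.mk _ P := by
    rw [AlgEquiv.symm_apply_eq]
    rfl
  have h2 : (ψ.comp (Ideal.quotientKerAlgEquivOfSurjective hf).symm.toAlgHom) (f P) =
      ψ ((Ideal.quotientKerAlgEquivOfSurjective hf).symm (f P)) := rfl
  rw [h2, h1]
  exact hxP

/-- Two elements of a complex domain with the same positive power and the same nonzero value at a point are
equal. -/
theorem eq_of_pow_eq {R : Type} [CommRing R] [IsDomain R] [Algebra ℂ R] (φ : R →ₐ[ℂ] ℂ) (a b : R) (n : ℕ)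
    (hn : 0 < n) (h : a ^ n = b ^ n) (hab : φ a = φ b) (h0 : φ a ≠ 0) : a = b := by
  have h1 := (Commute.all a b).geom_sum₂_mul n
  rw [h, sub_self] at h1
  rcases mul_eq_zero.mp h1 with h2 | h2
  · exfalso
    have h3 := congrArg φ h2
    rw [map_sum, map_zero] at h3
    have h4 : ∑ i ∈ Finset.range n, φ (a ^ i * b ^ (n - 1 - i)) = n * φ a ^ (n - 1) := by
      rw [Finset.sum_congr rfl (g := fun _ => φ a ^ (n - 1)), Finset.sum_const, Finset.card_range, nsmul_eq_mul]
      intro i hi
      rw [map_mul, map_pow, map_pow, ← hab, ← pow_add]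
      congr 1
      have := Finset.mem_range.mp hi
      lia
    rw [h4] at h3
    rcases mul_eq_zero.mp h3 with h5 | h5
    · have : n = 0 := by exact_mod_cast h5
      lia
    · exact pow_ne_zero _ h0 h5
  · exact sub_eq_zero.mp h2

end Pool.Agent.MP_cfacaa_ag.Tor
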