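import Pool.Agent.Lib.MP_cfacaa_ag.Tor.C1

/-!
A function with finitely many values which is locally a quotient of polynomials is constant along an
irreducible family.
-/

namespace Pool.Agent.MP_cfacaa_ag.Tor

open MvPolynomial

theorem map_aeval' {ι : Type} {R : Type} [CommRing R] [Algebra ℂ R] (ξ : ι → R) (φ : R →ₐ[ℂ] ℂ)
    (P : MvPolynomial ι ℂ) : aeval (fun i => φ (ξ i)) P = φ (aeval ξ P) := by
  have h1 : (φ.comp (aeval ξ) : MvPolynomial ι ℂ →ₐ[ℂ] ℂ) = aeval (fun i => φ (ξ i)) := by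
    rw [comp_aeval]
  rw [← h1]
  rfl

theorem constant {ι : Type} [Fintype ι] {R : Type} [CommRing R] [IsDomain R] [Algebra ℂ R] [Algebra.FiniteType ℂ R]
    (ξ : ι → R) (Φ : Set (ι → ℂ))
    (hopen : ∀ x ∈ Φ, ∃ w : MvPolynomial ι ℂ, aeval x w ≠ 0 ∧
      ∀ φ : R →ₐ[ℂ] ℂ, aeval (fun i => φ (ξ i)) w ≠ 0 → (fun i => φ (ξ i)) ∈ Φ)
    (h : (ι → ℂ) → ℂ)
    (hloc : ∀ x ∈ Φ, ∃ P Q : MvPolynomial ι ℂ, aeval x Q ≠ 0 ∧
      ∀ y ∈ Φ, aeval y Q ≠ 0 → h y * aeval y Q = aeval y P)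
    (T : Finset ℂ) (hT : ∀ x ∈ Φ, h x ∈ T) (φ ψ : R →ₐ[ℂ] ℂ) (hφ : (fun i => φ (ξ i)) ∈ Φ)
    (hψ : (fun i => ψ (ξ i)) ∈ Φ) : h (fun i => φ (ξ i)) = h (fun i => ψ (ξ i)) := by
  -- around a point the function is a constant
  have key : ∀ φ : R →ₐ[ℂ] ℂ, (fun i => φ (ξ i)) ∈ Φ → ∃ (a : ℂ) (z : R), z ≠ 0 ∧ h (fun i => φ (ξ i)) = a ∧
      ∀ θ : R →ₐ[ℂ] ℂ, θ z ≠ 0 → h (fun i => θ (ξ i)) = a := by
    intro φ hφ
    obtain ⟨w, hw, hwo⟩ := hopen _ hφ
    obtain ⟨P, Q, hQ, hPQ⟩ := hloc _ hφ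
    have hw0 : aeval ξ w ≠ 0 := by
      intro h0
      rw [map_aeval', h0, map_zero] at hw
      exact hw rfl
    have hQ0 : aeval ξ Q ≠ 0 := by
      intro h0
      rw [map_aeval', h0, map_zero] at hQ
      exact hQ rfl
    have hz : (∏ a ∈ T, (aeval ξ P - algebraMap ℂ R a * aeval ξ Q)) * (aeval ξ Q * aeval ξ w) = 0 := by
      by_contra hne
      obtain ⟨θ, hθ⟩ := exists_point _ hne
      rw [map_mul, map_mul, map_prod] at hθ
      have hθQ : aeval (fun i => θ (ξ i)) Q ≠ 0 := by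
        rw [map_aeval']
        intro h0
        rw [h0] at hθ
        apply hθ
        ring
      have hθw : aeval (fun i => θ (ξ i)) w ≠ 0 := by
        rw [map_aeval']
        intro h0
        rw [h0] at hθ
        apply hθ
        ring
      have hmem := hwo θ hθw
      have h1 := hPQ _ hmem hθQ
      apply hθ
      rw [Finset.prod_eq_zero (hT _ hmem), zero_mul]
      rw [map_sub, map_mul, AlgHom.commutes, ← map_aeval', ← map_aeval', ← h1]
      exact sub_self _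
    rcases mul_eq_zero.mp hz with h1 | h1
    · obtain ⟨a, ha, h2⟩ := Finset.prod_eq_zero_iff.mp h1
      have h3 : aeval ξ P = algebraMap ℂ R a * aeval ξ Q := sub_eq_zero.mp h2
      have h4 : ∀ θ : R →ₐ[ℂ] ℂ, θ (aeval ξ Q * aeval ξ w) ≠ 0 → h (fun i => θ (ξ i)) = a := by
        intro θ hθ
        rw [map_mul] at hθ
        have hθQ : aeval (fun i => θ (ξ i)) Q ≠ 0 := by
          rw [map_aeval']
          exact left_ne_zero_of_mul hθ
        have hθw : aeval (fun i => θ (ξ i)) w ≠ 0 := by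
          rw [map_aeval']
          exact right_ne_zero_of_mul hθ
        have h5 := hPQ _ (hwo θ hθw) hθQ
        rw [map_aeval' ξ θ P, h3, map_mul, AlgHom.commutes, ← map_aeval'] at h5
        exact mul_right_cancel₀ hθQ h5
      refine ⟨a, aeval ξ Q * aeval ξ w, mul_ne_zero hQ0 hw0, h4 φ ?_, h4⟩
      rw [map_mul, ← map_aeval', ← map_aeval']
      exact mul_ne_zero hQ hw
    · exact absurd h1 (mul_ne_zero hQ0 hw0)
  obtain ⟨a, z, hz, ha, haz⟩ := key φ hφ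
  obtain ⟨b, z', hz', hb, hbz⟩ := key ψ hψ
  obtain ⟨θ, hθ⟩ := exists_point _ (mul_ne_zero hz hz')
  rw [map_mul] at hθ
  rw [ha, hb, ← haz θ (left_ne_zero_of_mul hθ), ← hbz θ (right_ne_zero_of_mul hθ)]

end Pool.Agent.MP_cfacaa_ag.Tor
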