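import Pool.Agent.Lib.MP_cfacaa_ag.Tor.A4
import Pool.Agent.Lib.MP_cfacaa_ag.Tor.B4
import Pool.Agent.Lib.MP_cfacaa_ag.Tor.C2

/-!
The fibre of the contraction through a point, and sections of negative degree on it.
-/

namespace Pool.Agent.MP_cfacaa_ag.Tor

open MvPolynomial

variable {ι κ : Type} [Fintype ι] [Fintype κ] {r : ℕ}

/-- The situation: a wall `l` which separates `D` from `A`, a point `u` with the facet `l`, the combination
`p • A + q • D` on the wall is semiample, and `D` is nef. -/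
structure Setup (S : Sys ι κ r) (D : Fin r → ℤ) (l : (Fin r → ℤ) →+ ℤ) (p q : ℕ) (u : ι → ℂ) : Prop where
  good : S.Good
  nef : S.Nef D
  mem : u ∈ S.cone
  facet : Facet S.β u l
  ppos : 0 < p
  qpos : 0 < q
  lD : l D = -(p : ℤ)
  lA : l S.A = q
  semi : ∀ x ∈ S.cone, InK S.β x (p • S.A + q • D)

/-- A family of solutions `ξ` of the equations, with parameters in the ring `R`, through the point `u` (at the
parameter value `ev`) in the direction of the wall `l`. -/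
structure Test (S : Sys ι κ r) (l : (Fin r → ℤ) →+ ℤ) (u : ι → ℂ) {R : Type} [CommRing R] [Algebra ℂ R]
    (ξ : ι → R) (ev : R →ₐ[ℂ] ℂ) : Prop where
  zero : ∀ v, aeval ξ (S.F v) = 0
  neg : ∀ i, l (S.β i) < 0 → ξ i = 0
  flat : ∀ i, l (S.β i) = 0 → ξ i = algebraMap ℂ R (u i)
  at_ev : ∀ i, ev (ξ i) = u i

/-- The equations of the fibre of the contraction through `u`: the equations of `X` and the proportionality of the
values of the monomials of degree `B` with the values at `u`. -/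
noncomputable def fib (S : Sys ι κ r) (B : Fin r → ℤ) (u : ι → ℂ) (μ : ι → ℕ) :
    κ ⊕ {e : ι → ℕ // dg S.β e = B} → MvPolynomial ι ℂ :=
  Sum.elim S.F fun e => C (mo u μ) * mon e.1 - C (mo u e.1) * mon μ

theorem mem_cone_of_fib {S : Sys ι κ r} {B : Fin r → ℤ} {u : ι → ℂ} {μ : ι → ℕ} {x : ι → ℂ}
    (hx : x ∈ Zs S.β S.A (fib S B u μ)) : x ∈ S.cone :=
  ⟨fun v => hx.1 (Sum.inl v), hx.2⟩

theorem fib_rel {S : Sys ι κ r} {B : Fin r → ℤ} {u : ι → ℂ} {μ : ι → ℕ} {x : ι → ℂ}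
    (hx : x ∈ Zs S.β S.A (fib S B u μ)) (e : ι → ℕ) (he : dg S.β e = B) : mo u μ * mo x e = mo u e * mo x μ := by
  have h1 : aeval x (C (mo u μ) * mon e - C (mo u e) * mon μ : MvPolynomial ι ℂ) = 0 := hx.1 (Sum.inr ⟨e, he⟩)
  rw [map_sub, map_mul, map_mul, aeval_mon, aeval_mon, aeval_C, aeval_C] at h1
  exact sub_eq_zero.mp h1

theorem mu_ne_zero {S : Sys ι κ r} {B : Fin r → ℤ} {u : ι → ℂ} {μ : ι → ℕ} (hμu : mo u μ ≠ 0)
    (hne : ∀ x ∈ S.cone, ∃ e : ι → ℕ, dg S.β e = B ∧ mo x e ≠ 0) {x : ι → ℂ}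
    (hx : x ∈ Zs S.β S.A (fib S B u μ)) : mo x μ ≠ 0 := by
  obtain ⟨e, he, hxe⟩ := hne x (mem_cone_of_fib hx)
  have h1 := fib_rel hx e he
  intro h0
  rw [h0, mul_zero] at h1
  exact mul_ne_zero hμu hxe h1

theorem fib_hom (S : Sys ι κ r) (B : Fin r → ℤ) (u : ι → ℂ) (μ : ι → ℕ) (hμ : dg S.β μ = B)
    (t : κ ⊕ {e : ι → ℕ // dg S.β e = B}) :
    IsWeightedHomogeneous S.β (fib S B u μ t) (Sum.elim S.γ (fun _ => B) t) := by
  rcases t with v | e
  · exact S.hF v
  · have h1 := (isWeightedHomogeneous_C S.β (mo u μ)).mul (mon_hom S.β e.1)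
    have h2 := (isWeightedHomogeneous_C S.β (mo u e.1)).mul (mon_hom S.β μ)
    rw [e.2, zero_add] at h1
    rw [hμ, zero_add] at h2
    exact Submodule.sub_mem (weightedHomogeneousSubmodule ℂ S.β B) h1 h2

/-- On the fibre the function `s ^ (q * m0 * L) * M / μ ^ (k * m * L)` is locally a quotient of homogeneous
polynomials of the same degree. -/
theorem loc_fib (S : Sys ι κ r) (D : Fin r → ℤ) (p q m c k m0 L : ℕ) (hc : m * p = c + q)
    (u : ι → ℂ) (μ M : ι → ℕ) (hμ : dg S.β μ = m0 • (p • S.A + q • D)) (hμu : mo u μ ≠ 0)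
    (hne : ∀ x ∈ S.cone, ∃ e : ι → ℕ, dg S.β e = m0 • (p • S.A + q • D) ∧ mo x e ≠ 0)
    (hM : dg S.β M = (L * (k * c * m0)) • S.A) (s : (ι → ℂ) → ℂ) (hs : S.IsSection (k • (m • D + S.A)) s) :
    Loc S.β (Zs S.β S.A (fib S (m0 • (p • S.A + q • D)) u μ))
      (fun x => s x ^ (q * m0 * L) * mo x M / mo x μ ^ (k * m * L)) := by
  intro x hx
  obtain ⟨q', P, Q, hP, hQ, hQx, hPQ⟩ := hs x (mem_cone_of_fib hx)
  have hdeg : (q * m0 * L) • (k • (m • D + S.A)) + (L * (k * c * m0)) • S.A =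
      (k * m * L) • (m0 • (p • S.A + q • D)) := by
    funext j
    have hc' : (m : ℤ) * p = c + q := by exact_mod_cast hc
    simp only [Pi.add_apply, Pi.smul_apply]
    simp only [nsmul_eq_mul]
    push_cast
    linear_combination (-(S.A j) * k * L * m0) * hc'
  refine ⟨(q * m0 * L) • q' + q' + (k * m * L) • (m0 • (p • S.A + q • D)), P ^ (q * m0 * L) * Q * mon M,
    Q ^ (q * m0 * L) * Q * mon μ ^ (k * m * L), ?_, ?_, ?_, ?_⟩
  · have h1 := ((hP.pow (q * m0 * L)).mul hQ).mul (mon_hom S.β M)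
    rw [hM] at h1
    have h2 : (q * m0 * L) • (q' + k • (m • D + S.A)) + q' + (L * (k * c * m0)) • S.A =
        (q * m0 * L) • q' + q' + (k * m * L) • (m0 • (p • S.A + q • D)) := by
      rw [← hdeg, smul_add]
      abel
    rw [h2] at h1
    exact h1
  · have h1 := ((hQ.pow (q * m0 * L)).mul hQ).mul ((mon_hom S.β μ).pow (k * m * L))
    rw [hμ] at h1
    exact h1
  · rw [map_mul, map_mul, map_pow, map_pow, aeval_mon]
    exact mul_ne_zero (mul_ne_zero (pow_ne_zero _ hQx) hQx) (pow_ne_zero _ (mu_ne_zero hμu hne hx))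
  · intro y hy hyQ
    rw [map_mul, map_mul, map_pow, map_pow, aeval_mon] at hyQ
    have h1 := hPQ y (mem_cone_of_fib hy) (right_ne_zero_of_mul (left_ne_zero_of_mul hyQ))
    have h2 := pow_ne_zero (k * m * L) (mu_ne_zero hμu hne hy)
    rw [map_mul, map_mul, map_pow, map_pow, aeval_mon, map_mul, map_mul, map_pow, aeval_mon, ← h1, mul_pow]
    beta_reduce
    field_simp

/-- Points of a test family lie in the fibre as soon as they are semistable. -/
theorem test_mem_fib {S : Sys ι κ r} {D : Fin r → ℤ} {l : (Fin r → ℤ) →+ ℤ} {p q : ℕ} {u : ι → ℂ}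
    (hs : Setup S D l p q u) {R : Type} [CommRing R] [Algebra ℂ R] {ξ : ι → R} {ev : R →ₐ[ℂ] ℂ}
    (ht : Test S l u ξ ev) (m0 : ℕ) (μ : ι → ℕ) (hμ : dg S.β μ = m0 • (p • S.A + q • D)) (φ : R →ₐ[ℂ] ℂ)
    (hφ : InK S.β (fun i => φ (ξ i)) S.A) :
    (fun i => φ (ξ i)) ∈ Zs S.β S.A (fib S (m0 • (p • S.A + q • D)) u μ) := by
  have hB : l (m0 • (p • S.A + q • D)) = 0 := by
    rw [map_nsmul, map_add, map_nsmul, map_nsmul, hs.lA, hs.lD, nsmul_eq_mul, nsmul_eq_mul, nsmul_eq_mul]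
    ring
  have key : ∀ e : ι → ℕ, dg S.β e = m0 • (p • S.A + q • D) → mo (fun i => φ (ξ i)) e = mo u e := by
    intro e he
    have hneg : ∀ i, l (S.β i) < 0 → u i = 0 := by
      intro i hi
      by_contra h
      have := hs.facet.nonneg i h
      lia
    by_cases hN : ∃ i, e i ≠ 0 ∧ l (S.β i) < 0
    · obtain ⟨i, hi, hli⟩ := hN
      have h1 : mo u e = 0 := by
        by_contra h
        exact (mo_ne_zero_iff u e).mp h i hi (hneg i hli)
      have h2 : mo (fun i => φ (ξ i)) e = 0 := by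
        by_contra h
        apply (mo_ne_zero_iff _ e).mp h i hi
        rw [ht.neg i hli, map_zero]
      rw [h1, h2]
    · push Not at hN
      have h1 : ∑ i, (e i : ℤ) * l (S.β i) = 0 := by
        rw [← map_dg, he, hB]
      have h2 : ∀ i ∈ Finset.univ, (e i : ℤ) * l (S.β i) = 0 := by
        refine (Finset.sum_eq_zero_iff_of_nonneg ?_).mp h1
        intro i _
        by_cases hi : e i = 0
        · rw [hi]
          simp
        · exact mul_nonneg (Int.natCast_nonneg _) (hN i hi)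
      unfold mo
      refine Finset.prod_congr rfl fun i _ => ?_
      by_cases hi : e i = 0
      · rw [hi, pow_zero, pow_zero]
      · have h3 : l (S.β i) = 0 := by
          rcases mul_eq_zero.mp (h2 i (Finset.mem_univ i)) with h | h
          · exact absurd (by exact_mod_cast h) hi
          · exact h
        have h4 : φ (ξ i) = u i := by
          rw [ht.flat i h3, AlgHom.commutes]
          rfl
        beta_reduce
        rw [h4]
  refine ⟨?_, hφ⟩
  rintro (v | e)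
  · have h1 : aeval (fun i => φ (ξ i)) (S.F v) = φ (aeval ξ (S.F v)) := map_aeval' ξ φ (S.F v)
    rw [ht.zero v, map_zero] at h1
    exact h1
  · have h1 : aeval (fun i => φ (ξ i)) (C (mo u μ) * mon e.1 - C (mo u e.1) * mon μ : MvPolynomial ι ℂ) = 0 := by
      rw [map_sub, map_mul, map_mul, aeval_mon, aeval_mon, aeval_C, aeval_C, key e.1 e.2, key μ hμ]
      exact sub_eq_zero.mpr (mul_comm _ _)
    exact h1

/-- Monomials of suitable multiples of the degree `A` are proportional along every test family. -/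
theorem star {S : Sys ι κ r} {D : Fin r → ℤ} {l : (Fin r → ℤ) →+ ℤ} {p q : ℕ} {u : ι → ℂ}
    (hs : Setup S D l p q u) :
    ∃ κ0 : ℕ, 0 < κ0 ∧ ∀ (R : Type) [CommRing R] [IsDomain R] [Algebra ℂ R] [Algebra.FiniteType ℂ R]
      (ξ : ι → R) (ev : R →ₐ[ℂ] ℂ), Test S l u ξ ev → ∀ (L : ℕ) (M M1 : ι → ℕ), 0 < L →
        dg S.β M = (L * κ0) • S.A → dg S.β M1 = (L * κ0) • S.A →
          mo ξ M * algebraMap ℂ R (mo u M1) = mo ξ M1 * algebraMap ℂ R (mo u M) := by
  obtain ⟨m0, hm0, hne⟩ := uniform S.β S.cone (p • S.A + q • D) hs.semi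
  obtain ⟨k, hk, hgg⟩ := hs.nef (q + 1) (Nat.succ_pos q)
  obtain ⟨s, hsec, hsu⟩ := hgg u hs.mem
  obtain ⟨μ, hμ, hμu⟩ := hne u hs.mem
  obtain ⟨c, hc⟩ : ∃ c, (q + 1) * p = c + 1 + q := by
    have h1 : q + 1 ≤ (q + 1) * p := Nat.le_mul_of_pos_right _ hs.ppos
    obtain ⟨c, hc⟩ := Nat.exists_eq_add_of_le h1
    exact ⟨c, by lia⟩
  have hA : S.A ≠ 0 := by
    intro h0
    have h1 := hs.lA
    rw [h0, map_zero] at h1
    have h2 := hs.qpos
    lia
  refine ⟨k * (c + 1) * m0, Nat.mul_pos (Nat.mul_pos hk (Nat.succ_pos c)) hm0, ?_⟩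
  intro R _ _ _ _ ξ ev ht L M M1 hL hM hM1
  -- the values of the functions along the family
  have hev : (fun i => ev (ξ i)) = u := funext ht.at_ev
  have hconst : ∀ N : ι → ℕ, dg S.β N = (L * (k * (c + 1) * m0)) • S.A → ∀ φ : R →ₐ[ℂ] ℂ,
      InK S.β (fun i => φ (ξ i)) S.A →
        s (fun i => φ (ξ i)) ^ (q * m0 * L) * mo (fun i => φ (ξ i)) N / mo (fun i => φ (ξ i)) μ ^ (k * (q + 1) * L) =
          s u ^ (q * m0 * L) * mo u N / mo u μ ^ (k * (q + 1) * L) := by
    intro N hN φ hφ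
    have hloc := loc_fib S D p q (q + 1) (c + 1) k m0 L hc u μ N hμ hμu hne hN s hsec
    obtain ⟨T, hT⟩ := finite_values S.β hs.good.pointed S.A hA _ _ (fib_hom S _ u μ hμ) _ hloc
    have hcst := constant ξ (Zs S.β S.A (fib S (m0 • (p • S.A + q • D)) u μ)) (by
        intro x hx
        obtain ⟨n, hn, e, he, hxe⟩ := hx.2
        refine ⟨mon e, ?_, ?_⟩
        · rw [aeval_mon]
          exact hxe
        · intro φ hφ
          rw [aeval_mon] at hφ
          exact test_mem_fib hs ht m0 μ hμ φ ⟨n, hn, e, he, hφ⟩)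
      (fun x => s x ^ (q * m0 * L) * mo x N / mo x μ ^ (k * (q + 1) * L))
      (by
        intro x hx
        obtain ⟨q', P, Q, _, _, h1, h2⟩ := hloc x hx
        exact ⟨P, Q, h1, h2⟩) T hT φ ev (test_mem_fib hs ht m0 μ hμ φ hφ)
        (test_mem_fib hs ht m0 μ hμ ev (by rw [hev]; exact hs.mem.2))
    rw [hev] at hcst
    exact hcst
  by_contra hcon
  obtain ⟨φ, hφ⟩ := exists_point _ (sub_ne_zero.mpr hcon)
  apply hφ
  rw [map_sub, map_mul, map_mul, AlgHom.commutes, AlgHom.commutes]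
  have e1 : φ (mo ξ M) = mo (fun i => φ (ξ i)) M := map_mo (φ : R →+* ℂ) ξ M
  have e2 : φ (mo ξ M1) = mo (fun i => φ (ξ i)) M1 := map_mo (φ : R →+* ℂ) ξ M1
  rw [e1, e2, sub_eq_zero]
  change mo (fun i => φ (ξ i)) M * mo u M1 = mo (fun i => φ (ξ i)) M1 * mo u M
  have hLpos : 0 < L * (k * (c + 1) * m0) :=
    Nat.mul_pos hL (Nat.mul_pos (Nat.mul_pos hk (Nat.succ_pos c)) hm0)
  by_cases hst : InK S.β (fun i => φ (ξ i)) S.A
  · have h1 := hconst M hM φ hst
    have h2 := hconst M1 hM1 φ hst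
    have hx := test_mem_fib hs ht m0 μ hμ φ hst
    have h3 := pow_ne_zero (k * (q + 1) * L) (mu_ne_zero hμu hne hx)
    have h4 := pow_ne_zero (k * (q + 1) * L) hμu
    have h5 := pow_ne_zero (q * m0 * L) hsu
    rw [div_eq_div_iff h3 h4] at h1 h2
    have h6 : (s u ^ (q * m0 * L) * mo (fun i => φ (ξ i)) μ ^ (k * (q + 1) * L)) *
        (mo (fun i => φ (ξ i)) M * mo u M1) =
        (s u ^ (q * m0 * L) * mo (fun i => φ (ξ i)) μ ^ (k * (q + 1) * L)) *
        (mo (fun i => φ (ξ i)) M1 * mo u M) := by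
      linear_combination (mo (fun i => φ (ξ i)) M) * (-h2) + (mo (fun i => φ (ξ i)) M1) * h1
    exact mul_left_cancel₀ (mul_ne_zero h5 h3) h6
  · have h1 : ∀ N : ι → ℕ, dg S.β N = (L * (k * (c + 1) * m0)) • S.A → mo (fun i => φ (ξ i)) N = 0 := by
      intro N hN
      by_contra h
      exact hst ⟨_, hLpos, N, hN, h⟩
    rw [h1 M hM, h1 M1 hM1, zero_mul, zero_mul]

end Pool.Agent.MP_cfacaa_ag.Tor
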