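import Pool.Agent.Lib.MP_cfacaa_ag.Tor.C3
import Pool.Agent.Lib.MP_cfacaa_ag.Tor.A3

/-!
Test families stay in the torus orbit of the point.
-/

namespace Pool.Agent.MP_cfacaa_ag.Tor

open MvPolynomial

variable {ι κ : Type} [Fintype ι] [Fintype κ] {r : ℕ} {S : Sys ι κ r} {D : Fin r → ℤ} {l : (Fin r → ℤ) →+ ℤ}
  {p q : ℕ} {u : ι → ℂ}

theorem Test.map_mo_eq {R : Type} [CommRing R] [Algebra ℂ R] {ξ : ι → R} {ev : R →ₐ[ℂ] ℂ} (ht : Test S l u ξ ev)
    (e : ι → ℕ) : ev (mo ξ e) = mo u e := by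
  have h1 : ev (mo ξ e) = mo (fun i => ev (ξ i)) e := map_mo (ev : R →+* ℂ) ξ e
  rw [h1, funext ht.at_ev]

theorem Test.mo_ne_zero {R : Type} [CommRing R] [Algebra ℂ R] {ξ : ι → R} {ev : R →ₐ[ℂ] ℂ} (ht : Test S l u ξ ev)
    {e : ι → ℕ} (he : mo u e ≠ 0) : mo ξ e ≠ 0 := by
  intro h0
  apply he
  rw [← ht.map_mo_eq, h0, map_zero]

theorem algebraMap_ne_zero' {R : Type} [CommRing R] [IsDomain R] [Algebra ℂ R] {c : ℂ} (hc : c ≠ 0) :
    algebraMap ℂ R c ≠ 0 := by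
  intro h
  exact hc ((map_eq_zero_iff _ (algebraMap ℂ R).injective).mp h)

/-- Coordinates which vanish at the point vanish along every test family. -/
theorem vanish (hs : Setup S D l p q u) {R : Type} [CommRing R] [IsDomain R] [Algebra ℂ R]
    [Algebra.FiniteType ℂ R] {ξ : ι → R} {ev : R →ₐ[ℂ] ℂ} (ht : Test S l u ξ ev) (i : ι) (hi : u i = 0) :
    ξ i = 0 := by
  classical
  obtain ⟨κ0, hκ0, hstar⟩ := star hs
  obtain ⟨n, hn, N, hN, e, he, hue⟩ := hs.good.stable u hs.mem (-S.β i)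
  obtain ⟨n', hn', eA, heA, hueA⟩ := hs.mem.2
  have h1 : dg S.β (Pi.single i N + e) = (N * n) • S.A := by
    have h2 : dg S.β (Pi.single i N) = N • S.β i := by
      unfold dg
      rw [Finset.sum_eq_single i]
      · rw [Pi.single_eq_same]
      · intro j _ hj
        rw [Pi.single_eq_of_ne hj, zero_smul]
      · intro h
        exact absurd (Finset.mem_univ i) h
    rw [dg_add, h2, he, smul_add, smul_neg, mul_smul]
    abel
  have h2 := hstar R ξ ev ht (N * n * n') ((κ0 * (N * n)) • eA) ((κ0 * n') • (Pi.single i N + e))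
    (Nat.mul_pos (Nat.mul_pos hN hn) hn') (by rw [dg_smul, heA, ← mul_smul]; congr 1; ring)
    (by rw [dg_smul, h1, ← mul_smul]; congr 1; ring)
  have h3 : mo u ((κ0 * n') • (Pi.single i N + e)) = 0 := by
    by_contra h
    apply (mo_ne_zero_iff _ _).mp h i _ hi
    simp only [Pi.smul_apply, Pi.add_apply, Pi.single_eq_same, smul_eq_mul]
    have : 0 < (κ0 * n') * (N + e i) := Nat.mul_pos (Nat.mul_pos hκ0 hn') (by lia)
    exact this.ne'
  have h4 : mo u ((κ0 * (N * n)) • eA) ≠ 0 := by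
    rw [mo_smul]
    exact pow_ne_zero _ hueA
  rw [h3, map_zero, mul_zero] at h2
  have h5 : mo ξ ((κ0 * n') • (Pi.single i N + e)) = 0 := by
    rcases mul_eq_zero.mp h2.symm with h | h
    · exact h
    · exact absurd h (algebraMap_ne_zero' h4)
  rw [mo_smul] at h5
  have h6 := eq_zero_of_pow_eq_zero h5
  rw [mo_add] at h6
  rcases mul_eq_zero.mp h6 with h | h
  · unfold mo at h
    rw [Finset.prod_eq_single i] at h
    · rw [Pi.single_eq_same] at h
      exact eq_zero_of_pow_eq_zero h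
    · intro j _ hj
      rw [Pi.single_eq_of_ne hj, pow_zero]
    · intro h
      exact absurd (Finset.mem_univ i) h
  · exact absurd h (ht.mo_ne_zero hue)

/-- Monomials of the same degree in the nonvanishing coordinates are proportional along every test
family. -/
theorem dstar (hs : Setup S D l p q u) {R : Type} [CommRing R] [IsDomain R] [Algebra ℂ R]
    [Algebra.FiniteType ℂ R] {ξ : ι → R} {ev : R →ₐ[ℂ] ℂ} (ht : Test S l u ξ ev) (a b : ι → ℕ)
    (hab : dg S.β a = dg S.β b) (ha : mo u a ≠ 0) (hb : mo u b ≠ 0) :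
    mo ξ a * algebraMap ℂ R (mo u b) = mo ξ b * algebraMap ℂ R (mo u a) := by
  obtain ⟨κ0, hκ0, hstar⟩ := star hs
  obtain ⟨n, hn, N, hN, f, hf, huf⟩ := hs.good.stable u hs.mem (-dg S.β a)
  have h1 : ∀ c : ι → ℕ, dg S.β c = dg S.β a → dg S.β (κ0 • (N • c + f)) = (N * n * κ0) • S.A := by
    intro c hc
    rw [dg_smul, dg_add, dg_smul, hf, hc, smul_add N, smul_neg]
    have : N • dg S.β a + (N • n • S.A + -(N • dg S.β a)) = (N * n) • S.A := by
      rw [mul_smul]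
      abel
    rw [this, ← mul_smul]
    congr 1
    ring
  have h2 := hstar R ξ ev ht (N * n) (κ0 • (N • a + f)) (κ0 • (N • b + f)) (Nat.mul_pos hN hn)
    (h1 a rfl) (h1 b hab.symm)
  simp only [mo_smul, mo_add, map_pow, map_mul] at h2
  have h3 : (mo ξ a * algebraMap ℂ R (mo u b)) ^ (N * κ0) = (mo ξ b * algebraMap ℂ R (mo u a)) ^ (N * κ0) := by
    have h4 : (mo ξ f ^ κ0 * algebraMap ℂ R (mo u f) ^ κ0) ≠ 0 :=
      mul_ne_zero (pow_ne_zero _ (ht.mo_ne_zero huf)) (pow_ne_zero _ (algebraMap_ne_zero' huf))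
    apply mul_left_cancel₀ h4
    have h5 : (mo ξ f ^ κ0 * algebraMap ℂ R (mo u f) ^ κ0) * (mo ξ a * algebraMap ℂ R (mo u b)) ^ (N * κ0) =
        (mo ξ a ^ N * mo ξ f) ^ κ0 * (algebraMap ℂ R (mo u b) ^ N * algebraMap ℂ R (mo u f)) ^ κ0 := by
      rw [mul_pow, mul_pow, mul_pow, ← pow_mul, ← pow_mul]
      ring
    have h6 : (mo ξ f ^ κ0 * algebraMap ℂ R (mo u f) ^ κ0) * (mo ξ b * algebraMap ℂ R (mo u a)) ^ (N * κ0) =
        (mo ξ b ^ N * mo ξ f) ^ κ0 * (algebraMap ℂ R (mo u a) ^ N * algebraMap ℂ R (mo u f)) ^ κ0 := by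
      rw [mul_pow, mul_pow, mul_pow, ← pow_mul, ← pow_mul]
      ring
    rw [h5, h6]
    exact h2
  refine eq_of_pow_eq ev _ _ (N * κ0) (Nat.mul_pos hN hκ0) h3 ?_ ?_
  · rw [map_mul, map_mul, ht.map_mo_eq, ht.map_mo_eq, AlgHom.commutes, AlgHom.commutes]
    exact mul_comm _ _
  · rw [map_mul, ht.map_mo_eq, AlgHom.commutes]
    exact mul_ne_zero ha hb

/-- Two coordinates outside of the facet: a relation between their powers, with exponents which do not depend on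
the test family. -/
theorem two_coords (hs : Setup S D l p q u) (i j : ι) (hi : u i ≠ 0) (hj : u j ≠ 0) (hli : 0 < l (S.β i))
    (hlj : 0 < l (S.β j)) :
    ∃ h : ℕ, 0 < h ∧ ∀ (R : Type) [CommRing R] [IsDomain R] [Algebra ℂ R] [Algebra.FiniteType ℂ R]
      (ξ : ι → R) (ev : R →ₐ[ℂ] ℂ), Test S l u ξ ev →
        (ξ i * algebraMap ℂ R (u i)⁻¹) ^ (h * (l (S.β j)).toNat) =
          (ξ j * algebraMap ℂ R (u j)⁻¹) ^ (h * (l (S.β i)).toNat) := by
  classical
  set m : ℕ := (l (S.β j)).toNat with hm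
  set n : ℕ := (l (S.β i)).toNat with hn
  have hm' : (m : ℤ) = l (S.β j) := Int.toNat_of_nonneg hlj.le
  have hn' : (n : ℤ) = l (S.β i) := Int.toNat_of_nonneg hli.le
  have hB : l (m • S.β i - n • S.β j) = 0 := by
    rw [map_sub, map_nsmul, map_nsmul, nsmul_eq_mul, nsmul_eq_mul, hm', hn']
    ring
  obtain ⟨h, hh, a, c, ha, hc, hac⟩ := exists_comb S.β u l hs.facet _ hB
  refine ⟨h, hh, ?_⟩
  intro R _ _ _ _ ξ ev ht
  have hsingle : ∀ (k : ι) (N : ℕ), dg S.β (Pi.single k N) = N • S.β k := by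
    intro k N
    unfold dg
    rw [Finset.sum_eq_single k]
    · rw [Pi.single_eq_same]
    · intro j _ hj
      rw [Pi.single_eq_of_ne hj, zero_smul]
    · intro h
      exact absurd (Finset.mem_univ k) h
  have hmos : ∀ {T : Type} [CommRing T] (x : ι → T) (k : ι) (N : ℕ), mo x (Pi.single k N) = x k ^ N := by
    intro T _ x k N
    unfold mo
    rw [Finset.prod_eq_single k]
    · rw [Pi.single_eq_same]
    · intro j _ hj
      rw [Pi.single_eq_of_ne hj, pow_zero]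
    · intro h
      exact absurd (Finset.mem_univ k) h
  have hflat : ∀ e : ι → ℕ, (∀ i, e i ≠ 0 → u i ≠ 0 ∧ l (S.β i) = 0) →
      mo ξ e = algebraMap ℂ R (mo u e) ∧ mo u e ≠ 0 := by
    intro e he
    refine ⟨?_, (mo_ne_zero_iff u e).mpr fun i hi => (he i hi).1⟩
    unfold mo
    rw [map_prod]
    refine Finset.prod_congr rfl fun i _ => ?_
    by_cases hi : e i = 0
    · rw [hi, pow_zero, pow_zero, map_one]
    · rw [ht.flat i (he i hi).2, map_pow]
  obtain ⟨ha1, ha2⟩ := hflat a ha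
  obtain ⟨hc1, hc2⟩ := hflat c hc
  have hdg : dg S.β (Pi.single i (h * m) + c) = dg S.β (Pi.single j (h * n) + a) := by
    rw [dg_add, dg_add, hsingle, hsingle, ← hac, smul_sub, mul_smul, mul_smul]
    abel
  have h1 := dstar hs ht (Pi.single i (h * m) + c) (Pi.single j (h * n) + a) hdg
    (by rw [mo_add, hmos]; exact mul_ne_zero (pow_ne_zero _ hi) hc2)
    (by rw [mo_add, hmos]; exact mul_ne_zero (pow_ne_zero _ hj) ha2)
  rw [mo_add, mo_add, mo_add, mo_add, hmos, hmos, hmos, hmos, ha1, hc1, map_mul, map_mul, map_pow, map_pow] at h1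
  have h2 : ξ i ^ (h * m) * algebraMap ℂ R (u j) ^ (h * n) = ξ j ^ (h * n) * algebraMap ℂ R (u i) ^ (h * m) := by
    apply mul_left_cancel₀ (mul_ne_zero (algebraMap_ne_zero' (R := R) ha2) (algebraMap_ne_zero' (R := R) hc2))
    linear_combination h1
  have h3 : ∀ (v : ℂ) (N : ℕ), v ≠ 0 → algebraMap ℂ R v ^ N * algebraMap ℂ R v⁻¹ ^ N = 1 := by
    intro v N hv
    rw [← mul_pow, ← map_mul, mul_inv_cancel₀ hv, map_one, one_pow]
  have h4 := h3 (u i) (h * m) hi
  have h5 := h3 (u j) (h * n) hj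
  rw [mul_pow, mul_pow]
  calc ξ i ^ (h * m) * algebraMap ℂ R (u i)⁻¹ ^ (h * m)
      = ξ i ^ (h * m) * algebraMap ℂ R (u i)⁻¹ ^ (h * m) *
          (algebraMap ℂ R (u j) ^ (h * n) * algebraMap ℂ R (u j)⁻¹ ^ (h * n)) := by rw [h5, mul_one]
    _ = (ξ i ^ (h * m) * algebraMap ℂ R (u j) ^ (h * n)) *
          (algebraMap ℂ R (u i)⁻¹ ^ (h * m) * algebraMap ℂ R (u j)⁻¹ ^ (h * n)) := by ring
    _ = ξ j ^ (h * n) * algebraMap ℂ R (u j)⁻¹ ^ (h * n) *
          (algebraMap ℂ R (u i) ^ (h * m) * algebraMap ℂ R (u i)⁻¹ ^ (h * m)) := by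
        rw [h2]
        ring
    _ = ξ j ^ (h * n) * algebraMap ℂ R (u j)⁻¹ ^ (h * n) := by rw [h4, mul_one]

end Pool.Agent.MP_cfacaa_ag.Tor
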