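import Mathlib

/-!
A consequence of Krull's height theorem.
-/

namespace Pool.Agent.MP_cfacaa_ag.Tor

open MvPolynomial

section

variable {σ : Type} [Fintype σ]

/-- translation of the variables -/
noncomputable def translate (a : σ → ℂ) : MvPolynomial σ ℂ ≃ₐ[ℂ] MvPolynomial σ ℂ :=
  AlgEquiv.ofAlgHom (aeval fun i => X i + C (a i)) (aeval fun i => X i - C (a i))
    (by ext i; simp) (by ext i; simp)

omit [Fintype σ] in
theorem comap_translate (a : σ → ℂ) :
    (vanishingIdeal ℂ {(0 : σ → ℂ)}).comap (translate a).toRingEquiv =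
      vanishingIdeal ℂ {a} := by
  ext p
  rw [Ideal.mem_comap, mem_vanishingIdeal_singleton_iff, mem_vanishingIdeal_singleton_iff]
  have h : (aeval (0 : σ → ℂ)).comp (translate a : MvPolynomial σ ℂ →ₐ[ℂ] MvPolynomial σ ℂ) =
      aeval a := by
    ext i
    simp [translate]
  rw [← h]
  rfl

theorem height_vanishingIdeal_zero :
    (Fintype.card σ : ℕ∞) ≤ (vanishingIdeal ℂ {(0 : σ → ℂ)} : Ideal (MvPolynomial σ ℂ)).height := by
  have h1 : ringKrullDim (MvPolynomial σ ℂ) = Fintype.card σ := by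
    rw [MvPolynomial.ringKrullDim_of_isNoetherianRing, ringKrullDim_eq_zero_of_field, zero_add,
      Nat.card_eq_fintype_card]
  have h2 : ringKrullDim (MvPolynomial σ ℂ) ≤
      ((vanishingIdeal ℂ {(0 : σ → ℂ)} : Ideal (MvPolynomial σ ℂ)).height : WithBot ℕ∞) := by
    rw [ringKrullDim_le_iff_isMaximal_height_le]
    intro m hm
    obtain ⟨x, rfl⟩ := isMaximal_iff_eq_vanishingIdeal_singleton.1 hm
    rw [← comap_translate x, RingEquiv.height_comap]
  rw [h1] at h2
  exact_mod_cast h2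

theorem height_vanishingIdeal (a : σ → ℂ) :
    (Fintype.card σ : ℕ∞) ≤ (vanishingIdeal ℂ {a} : Ideal (MvPolynomial σ ℂ)).height := by
  rw [← comap_translate a, RingEquiv.height_comap]
  exact height_vanishingIdeal_zero

end

/-- Fewer than `n` polynomials in `n` variables which vanish at the point `a` are contained in a prime ideal
strictly smaller than the maximal ideal of `a`. -/
theorem krull {σ τ : Type} [Fintype σ] [Fintype τ] (f : τ → MvPolynomial σ ℂ) (a : σ → ℂ)
    (h0 : ∀ t, aeval a (f t) = 0) (hc : Fintype.card τ < Fintype.card σ) :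
    ∃ I : Ideal (MvPolynomial σ ℂ), I.IsPrime ∧ (∀ t, f t ∈ I) ∧ (∀ g ∈ I, aeval a g = 0) ∧
      ∃ i, X i - C (a i) ∉ I := by
  classical
  have hle : Ideal.span (Set.range f) ≤ vanishingIdeal ℂ {a} := by
    rw [Ideal.span_le]
    rintro _ ⟨t, rfl⟩
    rw [SetLike.mem_coe, mem_vanishingIdeal_singleton_iff]
    exact h0 t
  obtain ⟨q, hq, hqa⟩ := Ideal.exists_minimalPrimes_le hle
  have hprime : q.IsPrime := hq.1.1
  refine ⟨q, hprime, fun t => hq.1.2 (Ideal.subset_span ⟨t, rfl⟩), fun g hg => ?_, ?_⟩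
  · have := hqa hg
    rwa [mem_vanishingIdeal_singleton_iff] at this
  by_contra hcon
  push Not at hcon
  have heq : (Ideal.Quotient.mkₐ ℂ q) = (Algebra.ofId ℂ (MvPolynomial σ ℂ ⧸ q)).comp (aeval a) := by
    refine MvPolynomial.algHom_ext fun i => ?_
    rw [AlgHom.comp_apply, aeval_X]
    have h1 : (Ideal.Quotient.mkₐ ℂ q) (X i - C (a i)) = 0 := Ideal.Quotient.eq_zero_iff_mem.mpr (hcon i)
    rw [map_sub, sub_eq_zero] at h1
    rw [h1]
    rfl
  have hmle : vanishingIdeal ℂ {a} ≤ q := by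
    intro g hg
    rw [mem_vanishingIdeal_singleton_iff] at hg
    have h1 : (Ideal.Quotient.mkₐ ℂ q) g = 0 := by
      rw [heq, AlgHom.comp_apply, hg, map_zero]
    exact Ideal.Quotient.eq_zero_iff_mem.mp h1
  have hqe : q = vanishingIdeal ℂ {a} := le_antisymm hqa hmle
  have h1 := Ideal.height_le_card_of_mem_minimalPrimes_span (Set.finite_range f) hq
  have h2 := height_vanishingIdeal a
  rw [← hqe] at h2
  have h3 : (Set.range f).ncard ≤ Fintype.card τ := by
    rw [← Set.image_univ]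
    refine (Set.ncard_image_le Set.finite_univ).trans ?_
    rw [Set.ncard_univ, Nat.card_eq_fintype_card]
  have h4 : Fintype.card σ ≤ (Set.range f).ncard := by exact_mod_cast h2.trans h1
  lia

/-- Fewer than `n` polynomials in `n` variables which vanish at the point `a` have a common zero with coordinates in
a finitely generated domain, which specializes to `a` and which is not constant. -/
theorem krull_test {σ τ : Type} [Fintype σ] [Fintype τ] (f : τ → MvPolynomial σ ℂ) (a : σ → ℂ)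
    (h0 : ∀ t, aeval a (f t) = 0) (hc : Fintype.card τ < Fintype.card σ) :
    ∃ (R : Type) (_ : CommRing R) (_ : IsDomain R) (_ : Algebra ℂ R) (_ : Algebra.FiniteType ℂ R) (y : σ → R)
      (ev : R →ₐ[ℂ] ℂ), (∀ i, ev (y i) = a i) ∧ (∀ t, aeval y (f t) = 0) ∧ ∃ i, y i ≠ algebraMap ℂ R (a i) := by
  obtain ⟨I, hI, hfI, hle, i, hi⟩ := krull f a h0 hc
  refine ⟨MvPolynomial σ ℂ ⧸ I, inferInstance, Ideal.Quotient.isDomain I, inferInstance, inferInstance,
    fun i => Ideal.Quotient.mkₐ ℂ I (X i), Ideal.Quotient.liftₐ I (aeval a) hle, ?_, ?_, i, ?_⟩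
  · intro i
    exact aeval_X a i
  · intro t
    have h1 : (aeval (fun i => Ideal.Quotient.mkₐ ℂ I (X i)) : MvPolynomial σ ℂ →ₐ[ℂ] MvPolynomial σ ℂ ⧸ I) =
        Ideal.Quotient.mkₐ ℂ I := by
      refine MvPolynomial.algHom_ext fun i => ?_
      rw [aeval_X]
    rw [h1]
    exact Ideal.Quotient.eq_zero_iff_mem.mpr (hfI t)
  · intro h
    apply hi
    refine Ideal.Quotient.eq_zero_iff_mem.mp ?_
    have h2 : Ideal.Quotient.mkₐ ℂ I (X i - C (a i)) = 0 := by
      rw [map_sub, sub_eq_zero]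
      exact h
    exact h2

end Pool.Agent.MP_cfacaa_ag.Tor
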