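import Pool.Agent.Lib.MP_cfacaa_ag.Tor.C4
import Pool.Agent.Lib.MP_cfacaa_ag.Tor.D1

/-!
The case in which the number of equations is small.
-/

namespace Pool.Agent.MP_cfacaa_ag.Tor

open MvPolynomial

variable {ι κ : Type} [Fintype ι] [Fintype κ] {r : ℕ}

/-- Restriction of a polynomial to the affine space in the direction of the wall through `u`: the coordinates `i`
with `0 < l (β i)` are free, the others are those of `u` (and zero if `l (β i) < 0`). -/
noncomputable def res (β : ι → Fin r → ℤ) (l : (Fin r → ℤ) →+ ℤ) (u : ι → ℂ) :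
    MvPolynomial ι ℂ →ₐ[ℂ] MvPolynomial {i : ι // 0 < l (β i)} ℂ :=
  aeval fun i => if h : 0 < l (β i) then X ⟨i, h⟩ else if l (β i) = 0 then C (u i) else 0

/-- Substitutions in the restricted polynomials. -/
theorem aeval_res (β : ι → Fin r → ℤ) (l : (Fin r → ℤ) →+ ℤ) (u : ι → ℂ) {R : Type} [CommRing R] [Algebra ℂ R]
    (y : {i : ι // 0 < l (β i)} → R) (P : MvPolynomial ι ℂ) :
    aeval y (res β l u P) =
      aeval (fun i => if h : 0 < l (β i) then y ⟨i, h⟩ else if l (β i) = 0 then algebraMap ℂ R (u i) else 0) P := by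
  have h1 : (aeval y).comp (res β l u) =
      aeval (fun i => if h : 0 < l (β i) then y ⟨i, h⟩ else if l (β i) = 0 then algebraMap ℂ R (u i) else 0) := by
    refine MvPolynomial.algHom_ext fun i => ?_
    rw [AlgHom.comp_apply, res, aeval_X, aeval_X]
    split_ifs
    · rw [aeval_X]
    · rw [aeval_C]
    · rw [map_zero]
  rw [← h1]
  rfl

/-- The equations outside of `W` vanish on the affine space. -/
theorem res_eq_zero (S : Sys ι κ r) (l : (Fin r → ℤ) →+ ℤ) (u : ι → ℂ) (v : κ)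
    (hv : ∀ x : ι → ℂ, (∀ i, l (S.β i) < 0 → x i = 0) → (∀ i, l (S.β i) = 0 → x i = u i) → aeval x (S.F v) = 0) :
    res S.β l u (S.F v) = 0 := by
  refine MvPolynomial.funext fun y => ?_
  rw [map_zero]
  have h1 := aeval_res S.β l u y (S.F v)
  rw [hv _ (fun i hi => by rw [dif_neg (by lia), if_neg (by lia)])
    (fun i hi => by
      rw [dif_neg (by lia), if_pos hi]
      rfl)] at h1
  exact h1

/-- The coordinates outside of the facet do not all vanish. -/
theorem exists_pos {S : Sys ι κ r} {D : Fin r → ℤ} {l : (Fin r → ℤ) →+ ℤ} {p q : ℕ} {u : ι → ℂ}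
    (hs : Setup S D l p q u) : ∃ i, u i ≠ 0 ∧ 0 < l (S.β i) := by
  by_contra hcon
  push Not at hcon
  obtain ⟨n, hn, e, he, hue⟩ := hs.mem.2
  have h1 : l (dg S.β e) ≤ 0 := by
    rw [map_dg]
    refine Finset.sum_nonpos fun i _ => ?_
    by_cases hi : e i = 0
    · rw [hi]
      simp
    · exact mul_nonpos_of_nonneg_of_nonpos (Int.natCast_nonneg _) (hcon i ((mo_ne_zero_iff u e).mp hue i hi))
  rw [he, map_nsmul, hs.lA, nsmul_eq_mul] at h1
  have h2 : (0 : ℤ) < n * q := mul_pos (by exact_mod_cast hn) (by exact_mod_cast hs.qpos)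
  lia

theorem Setup.neg {S : Sys ι κ r} {D : Fin r → ℤ} {l : (Fin r → ℤ) →+ ℤ} {p q : ℕ} {u : ι → ℂ}
    (hs : Setup S D l p q u) {i : ι} (hi : l (S.β i) < 0) : u i = 0 := by
  by_contra h
  have := hs.facet.nonneg i h
  lia

/-- The restricted equations vanish at the point. -/
theorem aeval_res_self {S : Sys ι κ r} {D : Fin r → ℤ} {l : (Fin r → ℤ) →+ ℤ} {p q : ℕ} {u : ι → ℂ}
    (hs : Setup S D l p q u) (v : κ) :
    aeval (fun i : {i : ι // 0 < l (S.β i)} => u i.1) (res S.β l u (S.F v)) = 0 := by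
  rw [aeval_res]
  have h1 : (fun i => if h : 0 < l (S.β i) then u i else if l (S.β i) = 0 then algebraMap ℂ ℂ (u i) else 0) = u := by
    funext i
    split_ifs with h2 h3
    · rfl
    · rfl
    · exact (hs.neg (by lia)).symm
  rw [h1]
  exact hs.mem.1 v

/-- The family of coordinates with the given values in the direction of the wall. -/
noncomputable def ext (β : ι → Fin r → ℤ) (l : (Fin r → ℤ) →+ ℤ) (u : ι → ℂ) {R : Type} [CommRing R] [Algebra ℂ R]
    (y : {i : ι // 0 < l (β i)} → R) : ι → R :=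
  fun i => if h : 0 < l (β i) then y ⟨i, h⟩ else if l (β i) = 0 then algebraMap ℂ R (u i) else 0

theorem ext_pos (β : ι → Fin r → ℤ) (l : (Fin r → ℤ) →+ ℤ) (u : ι → ℂ) {R : Type} [CommRing R] [Algebra ℂ R]
    (y : {i : ι // 0 < l (β i)} → R) (i : {i : ι // 0 < l (β i)}) : ext β l u y i.1 = y i := dif_pos i.2

/-- Test families from solutions of the restricted equations. -/
theorem test_ext {S : Sys ι κ r} {D : Fin r → ℤ} {l : (Fin r → ℤ) →+ ℤ} {p q : ℕ} {u : ι → ℂ}
    (hs : Setup S D l p q u) {R : Type} [CommRing R] [Algebra ℂ R] (y : {i : ι // 0 < l (S.β i)} → R)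
    (ev : R →ₐ[ℂ] ℂ) (hev : ∀ i, ev (y i) = u i.1) (hy : ∀ v, aeval y (res S.β l u (S.F v)) = 0) :
    Test S l u (ext S.β l u y) ev := by
  refine ⟨?_, ?_, ?_, ?_⟩
  · intro v
    have h1 : aeval (ext S.β l u y) (S.F v) = aeval y (res S.β l u (S.F v)) := (aeval_res S.β l u y (S.F v)).symm
    rw [h1, hy]
  · intro i hi
    unfold ext
    rw [dif_neg (by lia), if_neg (by lia)]
  · intro i hi
    unfold ext
    rw [dif_neg (by lia), if_pos hi]
  · intro i
    unfold ext
    by_cases h1 : 0 < l (S.β i)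
    · rw [dif_pos h1, hev]
    · by_cases h2 : l (S.β i) = 0
      · rw [dif_neg h1, if_pos h2, AlgHom.commutes]
        rfl
      · rw [dif_neg h1, if_neg h2, map_zero, hs.neg (by lia)]

theorem alg_mul_inv {R : Type} [CommRing R] [Algebra ℂ R] {v : ℂ} (hv : v ≠ 0) :
    algebraMap ℂ R v * algebraMap ℂ R v⁻¹ = 1 := by
  rw [← map_mul, mul_inv_cancel₀ hv, map_one]

/-- If one nonvanishing coordinate outside of the facet is constant, the test family is constant. -/
theorem all_const {S : Sys ι κ r} {D : Fin r → ℤ} {l : (Fin r → ℤ) →+ ℤ} {p q : ℕ} {u : ι → ℂ}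
    (hs : Setup S D l p q u) {R : Type} [CommRing R] [IsDomain R] [Algebra ℂ R] [Algebra.FiniteType ℂ R] {ξ : ι → R}
    {ev : R →ₐ[ℂ] ℂ} (ht : Test S l u ξ ev) (i0 : ι) (hui0 : u i0 ≠ 0) (hli0 : 0 < l (S.β i0))
    (h0 : ξ i0 = algebraMap ℂ R (u i0)) (i : ι) (hi : 0 < l (S.β i)) : ξ i = algebraMap ℂ R (u i) := by
  by_cases hui : u i = 0
  · rw [vanish hs ht i hui, hui, map_zero]
  · obtain ⟨h, hh, hrel⟩ := two_coords hs i i0 hui hui0 hi hli0
    have h1 := hrel R ξ ev ht
    rw [h0, alg_mul_inv hui0, one_pow] at h1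
    have h2 : ξ i * algebraMap ℂ R (u i)⁻¹ = 1 := by
      refine eq_of_pow_eq ev _ _ (h * (l (S.β i0)).toNat) (Nat.mul_pos hh (by lia)) (by rw [h1, one_pow]) ?_ ?_
      · rw [map_mul, ht.at_ev, AlgHom.commutes, map_one]
        exact mul_inv_cancel₀ hui
      · rw [map_mul, ht.at_ev, AlgHom.commutes]
        have : u i * (u i)⁻¹ = 1 := mul_inv_cancel₀ hui
        exact this.trans_ne one_ne_zero
    calc ξ i = ξ i * algebraMap ℂ R (u i)⁻¹ * algebraMap ℂ R (u i) := by
          rw [mul_assoc, mul_comm (algebraMap ℂ R (u i)⁻¹), alg_mul_inv hui, mul_one]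
      _ = algebraMap ℂ R (u i) := by rw [h2, one_mul]

theorem beta_case {S : Sys ι κ r} {D : Fin r → ℤ} {l : (Fin r → ℤ) →+ ℤ} {p q : ℕ} {u : ι → ℂ}
    (hs : Setup S D l p q u) (W : Finset κ)
    (hW : ∀ v ∉ W, ∀ x : ι → ℂ, (∀ i, l (S.β i) < 0 → x i = 0) → (∀ i, l (S.β i) = 0 → x i = u i) →
        aeval x (S.F v) = 0)
    (hc : W.card + 2 ≤ (Finset.univ.filter fun i => 0 < l (S.β i)).card) : False := by
  classical
  obtain ⟨i0, hui0, hli0⟩ := exists_pos hs
  let f : Option W → MvPolynomial {i : ι // 0 < l (S.β i)} ℂ := fun t =>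
    Option.elim t (X ⟨i0, hli0⟩ - C (u i0)) fun v => res S.β l u (S.F v.1)
  have hf0 : f none = X ⟨i0, hli0⟩ - C (u i0) := rfl
  have hf1 : ∀ v : W, f (some v) = res S.β l u (S.F v.1) := fun v => rfl
  clear_value f
  have h00 : ∀ t, aeval (fun i : {i : ι // 0 < l (S.β i)} => u i.1) (f t) = 0 := by
    rintro (_ | v)
    · rw [hf0, map_sub, aeval_X, aeval_C]
      exact sub_self (u i0)
    · rw [hf1]
      exact aeval_res_self hs v.1
  obtain ⟨R, _, _, _, _, y, ev, hev, hy, i1, hi1⟩ := krull_test f (fun i => u i.1) h00 (by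
      rw [Fintype.card_option, Fintype.card_coe, Fintype.card_subtype]
      lia)
  have ht : Test S l u (ext S.β l u y) ev := by
    refine test_ext hs y ev hev fun v => ?_
    by_cases hv : v ∈ W
    · have h1 := hy (some ⟨v, hv⟩)
      rw [hf1] at h1
      exact h1
    · rw [res_eq_zero S l u v (hW v hv), map_zero]
  have h0 : ext S.β l u y i0 = algebraMap ℂ R (u i0) := by
    have h2 := hy none
    rw [hf0, map_sub, aeval_X, aeval_C, sub_eq_zero] at h2
    rw [← h2]
    exact ext_pos S.β l u y ⟨i0, hli0⟩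
  apply hi1
  rw [← ext_pos S.β l u y i1]
  exact all_const hs ht i0 hui0 hli0 h0 i1.1 i1.2

end Pool.Agent.MP_cfacaa_ag.Tor
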