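import Mathlib

/-!
Zero sets of homogeneous equations in quotients of an affine space by a torus (toric varieties in Cox
coordinates): points, line bundles, sections, nef classes.
-/

namespace Pool.Agent.MP_cfacaa_ag.Tor

open MvPolynomial

section

variable {ι : Type} [Fintype ι] {r : ℕ}

/-- The degree `∑ i, e i • β i` of the monomial with the exponents `e i`. -/
def dg (β : ι → Fin r → ℤ) (e : ι → ℕ) : Fin r → ℤ := ∑ i, e i • β i

/-- The value `∏ i, x i ^ e i` of the monomial with the exponents `e i`. -/
def mo {R : Type} [CommSemiring R] (x : ι → R) (e : ι → ℕ) : R := ∏ i, x i ^ e i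

/-- `B` lies in the rational cone generated by the degrees of the coordinates which do not vanish at `x`: some
monomial whose degree is a positive multiple of `B` does not vanish at `x`. -/
def InK (β : ι → Fin r → ℤ) (x : ι → ℂ) (B : Fin r → ℤ) : Prop :=
  ∃ n : ℕ, 0 < n ∧ ∃ e : ι → ℕ, dg β e = n • B ∧ mo x e ≠ 0

/-- `l` is (the primitive equation of) a facet of the cone generated by the degrees of the coordinates which do not
vanish at `x`: `l` is surjective and nonnegative on these degrees, and it is determined up to a factor by the degrees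
on which it vanishes. -/
structure Facet (β : ι → Fin r → ℤ) (x : ι → ℂ) (l : (Fin r → ℤ) →+ ℤ) : Prop where
  surj : Function.Surjective l
  nonneg : ∀ i, x i ≠ 0 → 0 ≤ l (β i)
  span : ∀ m : (Fin r → ℤ) →+ ℤ, (∀ i, x i ≠ 0 → l (β i) = 0 → m (β i) = 0) → ∃ a : ℤ, m = a • l

end

/-- Homogeneous equations `F v = 0`, `v : κ`, in Cox coordinates: the coordinates are indexed by `ι`, the coordinate
`i` has the degree `β i` in the grading group `ℤ ^ r`, `F v` is homogeneous of degree `γ v`, and `A` is a degree (the
polarization). -/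
structure Sys (ι κ : Type) [Fintype ι] [Fintype κ] (r : ℕ) where
  /-- the degrees of the coordinates -/
  β : ι → Fin r → ℤ
  /-- the degrees of the equations -/
  γ : κ → Fin r → ℤ
  /-- the equations -/
  F : κ → MvPolynomial ι ℂ
  hF : ∀ v, IsWeightedHomogeneous β (F v) (γ v)
  /-- the polarization -/
  A : Fin r → ℤ

section

variable {ι κ : Type} [Fintype ι] [Fintype κ] {r : ℕ} (S : Sys ι κ r)

/-- The points which satisfy the equations and are semistable with respect to the polarization; the quotient by
the torus with the character group `ℤ ^ r` is `X`. -/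
def Sys.cone : Set (ι → ℂ) := {x | (∀ v, aeval x (S.F v) = 0) ∧ InK S.β x S.A}

/-- `X` is projective and lies in the smooth locus of the ambient toric variety: the torus acts freely on the
cone, every point of the cone is stable, and only the constants have degree zero. -/
structure Sys.Good : Prop where
  free : ∀ x ∈ S.cone, AddSubgroup.closure (S.β '' {i | x i ≠ 0}) = ⊤
  stable : ∀ x ∈ S.cone, ∀ B, ∃ n : ℕ, 0 < n ∧ InK S.β x (n • S.A + B)
  pointed : ∀ e, dg S.β e = 0 → e = 0

/-- `s` is a section over `X` of the line bundle `𝒪_X(B)`: locally on the cone `s` is `P / Q` with homogeneous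
polynomials `P`, `Q` of degrees `q + B`, `q`. -/
def Sys.IsSection (B : Fin r → ℤ) (s : (ι → ℂ) → ℂ) : Prop :=
  ∀ x ∈ S.cone, ∃ (q : Fin r → ℤ) (P Q : MvPolynomial ι ℂ), IsWeightedHomogeneous S.β P (q + B) ∧
    IsWeightedHomogeneous S.β Q q ∧ aeval x Q ≠ 0 ∧ ∀ y ∈ S.cone, aeval y Q ≠ 0 → s y * aeval y Q = aeval y P

/-- The line bundle `𝒪_X(B)` is globally generated. -/
def Sys.GloballyGenerated (B : Fin r → ℤ) : Prop := ∀ x ∈ S.cone, ∃ s, S.IsSection B s ∧ s x ≠ 0

/-- The class `D` is nef on `X`: for every `m > 0` some positive multiple of `m • D + A` is globally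
generated. -/
def Sys.Nef (D : Fin r → ℤ) : Prop := ∀ m : ℕ, 0 < m → ∃ k : ℕ, 0 < k ∧ S.GloballyGenerated (k • (m • D + S.A))

/-- The condition on the walls which separate `D` from the polarization. Let `l` be (the equation of) a facet of
the cone of semiample degrees at a point of `X`, with `l D < 0`. Then some point `u` of the cone with the facet `l` and
some set `W` of equations satisfy: the other equations vanish at all `x` with `x i = 0` if `l (β i) < 0`,
`x i = u i` if `l (β i) = 0`, and either the sum of the positive `l (β i)` exceeds the sum of the positive `l (γ v)`,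
`v ∈ W`, by at least `2`, or the number of the `i` with `l (β i) > 0` exceeds `|W|` by at least
`2`. -/
def Sys.Wide (D : Fin r → ℤ) : Prop :=
  ∀ l : (Fin r → ℤ) →+ ℤ, l D < 0 → (∃ x ∈ S.cone, Facet S.β x l) →
    ∃ u ∈ S.cone, Facet S.β u l ∧ ∃ W : Finset κ,
      (∀ v ∉ W, ∀ x : ι → ℂ, (∀ i, l (S.β i) < 0 → x i = 0) → (∀ i, l (S.β i) = 0 → x i = u i) →
        aeval x (S.F v) = 0) ∧
      (∑ v ∈ W, (l (S.γ v)).toNat + 2 ≤ ∑ i, (l (S.β i)).toNat ∨
        W.card + 2 ≤ (Finset.univ.filter fun i => 0 < l (S.β i)).card)

/-- The anticanonical degree `∑ i, β i - ∑ v, γ v` of `X` (by adjunction, if `X` is a complete intersection; it is zero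
in the Calabi–Yau case) and all degrees of equations are semiample at every point of `X`. -/
structure Sys.AntiNef : Prop where
  anti : ∀ x ∈ S.cone, InK S.β x (∑ i, S.β i - ∑ v, S.γ v)
  semiample : ∀ x ∈ S.cone, ∀ v, InK S.β x (S.γ v)

/-- `D` is movable along `X`: a positive multiple of `D` is the degree of a monomial, and for every `j` such that
the divisor `x j = 0` meets `X` also of a monomial without the coordinate `j`. -/
def Sys.Movable (D : Fin r → ℤ) : Prop :=
  (∃ n : ℕ, 0 < n ∧ ∃ e : ι → ℕ, dg S.β e = n • D) ∧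
    ∀ j, (∃ x ∈ S.cone, x j = 0) → ∃ n : ℕ, 0 < n ∧ ∃ e : ι → ℕ, dg S.β e = n • D ∧ e j = 0

end

end Pool.Agent.MP_cfacaa_ag.Tor
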