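import Pool.Agent.Lib.MP_cfacaa_ag.Tor.D1

/-!
Homogeneous systems with fewer equations than unknowns.
-/

namespace Pool.Agent.MP_cfacaa_ag.Tor

open MvPolynomial

/-- Fewer homogeneous equations of positive degree than unknowns have a nontrivial common zero. -/
theorem exists_zero {σ τ : Type} [Fintype σ] [Fintype τ] (f : τ → MvPolynomial σ ℂ) (d : τ → ℕ)
    (hd : ∀ t, 0 < d t) (hf : ∀ t, (f t).IsHomogeneous (d t)) (hc : Fintype.card τ < Fintype.card σ) :
    ∃ z : σ → ℂ, z ≠ 0 ∧ ∀ t, aeval z (f t) = 0 := by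
  have h0 : ∀ t, aeval (0 : σ → ℂ) (f t) = 0 := by
    intro t
    have h1 : aeval (0 : σ → ℂ) (f t) = algebraMap ℂ ℂ (constantCoeff (f t)) := by
      rw [aeval_zero]
    rw [h1, constantCoeff_eq, (hf t).coeff_eq_zero, map_zero]
    rw [map_zero]
    exact (hd t).ne
  obtain ⟨I, hI, hfI, hle, i, hi⟩ := krull f 0 h0 hc
  by_contra hcon
  push Not at hcon
  have h1 : (X i - C ((0 : σ → ℂ) i) : MvPolynomial σ ℂ) ∈ I.radical := by
    rw [← MvPolynomial.vanishingIdeal_zeroLocus_eq_radical (K := ℂ), mem_vanishingIdeal_iff]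
    intro x hx
    rw [mem_zeroLocus_iff] at hx
    have hx0 : x = 0 := by
      by_contra hne
      obtain ⟨t, ht⟩ := hcon x hne
      exact ht (hx _ (hfI t))
    rw [hx0]
    simp
  rw [hI.radical] at h1
  exact hi h1

end Pool.Agent.MP_cfacaa_ag.Tor
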