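import Pool.Agent.Lib.MP_cfacaa_ag.Tor.E1

/-!
Polynomial arcs on weighted homogeneous zero sets.
-/

namespace Pool.Agent.MP_cfacaa_ag.Tor

open MvPolynomial

/-- The general arc `a i + ∑ z (i, j) ^ (j + 1) * t ^ (j + 1)`, `j < w i`, as a family of polynomials in `t` with
coefficients in the polynomial ring in the unknowns `z`. -/
noncomputable def genArc {σ : Type} (w : σ → ℕ) (a : σ → ℂ) (i : σ) :
    Polynomial (MvPolynomial (Σ i : σ, Fin (w i)) ℂ) :=
  Polynomial.C (C (a i)) + ∑ j : Fin (w i), Polynomial.C (X ⟨i, j⟩ ^ (j.1 + 1)) * Polynomial.X ^ (j.1 + 1)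

theorem genArc_coeff_zero {σ : Type} (w : σ → ℕ) (a : σ → ℂ) (i : σ) : (genArc w a i).coeff 0 = C (a i) := by
  unfold genArc
  rw [Polynomial.coeff_add, Polynomial.coeff_C_zero, Polynomial.finsetSum_coeff, Finset.sum_eq_zero, add_zero]
  intro j _
  rw [Polynomial.coeff_C_mul_X_pow, if_neg (by lia)]

theorem genArc_coeff_succ {σ : Type} (w : σ → ℕ) (a : σ → ℂ) (i : σ) (j : Fin (w i)) :
    (genArc w a i).coeff (j.1 + 1) = X ⟨i, j⟩ ^ (j.1 + 1) := by
  unfold genArc
  rw [Polynomial.coeff_add, Polynomial.coeff_C_of_ne_zero (by lia), zero_add, Polynomial.finsetSum_coeff,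
    Finset.sum_eq_single j]
  · rw [Polynomial.coeff_C_mul_X_pow, if_pos rfl]
  · intro k _ hk
    rw [Polynomial.coeff_C_mul_X_pow, if_neg]
    intro h
    exact hk (Fin.ext (by lia))
  · intro h
    exact absurd (Finset.mem_univ j) h

theorem genArc_natDegree {σ : Type} (w : σ → ℕ) (a : σ → ℂ) (i : σ) : (genArc w a i).natDegree ≤ w i := by
  unfold genArc
  refine Polynomial.natDegree_add_le_of_degree_le ?_ ?_
  · rw [Polynomial.natDegree_C]
    exact Nat.zero_le _
  · refine Polynomial.natDegree_sum_le_of_forall_le _ _ fun j _ => ?_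
    exact (Polynomial.natDegree_C_mul_X_pow_le _ _).trans j.2

/-- The coefficients of the equations at the general arc are homogeneous. -/
theorem coeff_genArc {σ : Type} [Fintype σ] (w : σ → ℕ) (a : σ → ℂ) (f : MvPolynomial σ ℂ) (k : ℕ) :
    ((aeval (genArc w a) f : Polynomial (MvPolynomial (Σ i : σ, Fin (w i)) ℂ)).coeff k).IsHomogeneous k := by
  have hmul : ∀ F G : Polynomial (MvPolynomial (Σ i : σ, Fin (w i)) ℂ), (∀ k, (F.coeff k).IsHomogeneous k) →
      (∀ k, (G.coeff k).IsHomogeneous k) → ∀ k, ((F * G).coeff k).IsHomogeneous k := by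
    intro F G hF hG k
    rw [Polynomial.coeff_mul]
    refine IsHomogeneous.sum _ _ _ fun x hx => ?_
    rw [← Finset.HasAntidiagonal.mem_antidiagonal.mp hx]
    exact (hF x.1).mul (hG x.2)
  have hadd : ∀ F G : Polynomial (MvPolynomial (Σ i : σ, Fin (w i)) ℂ), (∀ k, (F.coeff k).IsHomogeneous k) →
      (∀ k, (G.coeff k).IsHomogeneous k) → ∀ k, ((F + G).coeff k).IsHomogeneous k := by
    intro F G hF hG k
    rw [Polynomial.coeff_add]
    exact (hF k).add (hG k)
  have hC : ∀ (c : ℂ) (k : ℕ),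
      ((Polynomial.C (C c) : Polynomial (MvPolynomial (Σ i : σ, Fin (w i)) ℂ)).coeff k).IsHomogeneous k := by
    intro c k
    rcases Nat.eq_zero_or_pos k with h | h
    · rw [h, Polynomial.coeff_C_zero]
      exact isHomogeneous_C _ c
    · rw [Polynomial.coeff_C_of_ne_zero h.ne']
      exact isHomogeneous_zero _ _ _
  have hgen : ∀ (i : σ) (k : ℕ), ((genArc w a i).coeff k).IsHomogeneous k := by
    intro i k
    unfold genArc
    refine hadd _ _ (hC (a i)) ?_ k
    intro k
    rw [Polynomial.finsetSum_coeff]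
    refine IsHomogeneous.sum _ _ _ fun j _ => ?_
    rw [Polynomial.coeff_C_mul_X_pow]
    split_ifs with h
    · rw [h]
      have h1 := (isHomogeneous_X ℂ (⟨i, j⟩ : Σ i : σ, Fin (w i))).pow (j.1 + 1)
      rw [one_mul] at h1
      exact h1
    · exact isHomogeneous_zero _ _ _
  induction f using MvPolynomial.induction_on generalizing k with
  | C c =>
    rw [aeval_C]
    exact hC c k
  | add p q hp hq =>
    rw [map_add]
    exact hadd _ _ hp hq k
  | mul_X p i hp =>
    rw [map_mul, aeval_X]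
    exact hmul _ _ hp (hgen i) k

/-- The degree of an equation at the general arc. -/
theorem natDegree_genArc {σ : Type} [Fintype σ] (w : σ → ℕ) (a : σ → ℂ) (f : MvPolynomial σ ℂ) (d : ℕ)
    (hf : IsWeightedHomogeneous w f d) :
    (aeval (genArc w a) f : Polynomial (MvPolynomial (Σ i : σ, Fin (w i)) ℂ)).natDegree ≤ d := by
  rw [f.as_sum, map_sum]
  refine Polynomial.natDegree_sum_le_of_forall_le _ _ fun e he => ?_
  have h1 : Finsupp.weight w e = d := hf (mem_support_iff.mp he)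
  rw [aeval_monomial, Finsupp.prod_fintype _ _ (fun i => pow_zero _)]
  have h2 : (algebraMap ℂ (Polynomial (MvPolynomial (Σ i : σ, Fin (w i)) ℂ)) (coeff e f)).natDegree = 0 :=
    Polynomial.natDegree_C _
  refine Polynomial.natDegree_mul_le.trans ?_
  rw [h2, zero_add]
  refine (Polynomial.natDegree_prod_le _ _).trans ?_
  rw [← h1, Finsupp.weight_apply, Finsupp.sum_fintype _ _ (fun i => zero_smul ℕ (w i))]
  refine Finset.sum_le_sum fun i _ => ?_
  refine Polynomial.natDegree_pow_le.trans ?_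
  exact Nat.mul_le_mul_left _ (genArc_natDegree w a i)

/-- The value of an equation at the general arc for `t = 0`. -/
theorem coeff_zero_genArc {σ : Type} [Fintype σ] (w : σ → ℕ) (a : σ → ℂ) (f : MvPolynomial σ ℂ) :
    (aeval (genArc w a) f : Polynomial (MvPolynomial (Σ i : σ, Fin (w i)) ℂ)).coeff 0 = C (aeval a f) := by
  induction f using MvPolynomial.induction_on with
  | C c =>
    rw [aeval_C, aeval_C]
    exact Polynomial.coeff_C_zero
  | add p q hp hq =>
    rw [map_add, map_add, Polynomial.coeff_add, hp, hq, map_add]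
  | mul_X p i hp =>
    rw [map_mul, map_mul, Polynomial.mul_coeff_zero, hp, aeval_X, aeval_X, genArc_coeff_zero, map_mul]

/-- Nonconstant polynomial arcs through the point `a` on the zero set of few weighted homogeneous equations, with
vanishing linear term in the coordinate `i0`. -/
theorem arcs {σ τ : Type} [Fintype σ] [Fintype τ] (w : σ → ℕ) (δ : τ → ℕ) (f : τ → MvPolynomial σ ℂ)
    (hf : ∀ v, IsWeightedHomogeneous w (f v) (δ v)) (a : σ → ℂ) (ha : ∀ v, aeval a (f v) = 0) (i0 : σ)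
    (hi0 : 0 < w i0) (hc : ∑ v, δ v + 2 ≤ ∑ i, w i) :
    ∃ y : σ → Polynomial ℂ, (∀ v, aeval y (f v) = 0) ∧ (∀ i, (y i).coeff 0 = a i) ∧ (∀ i, (y i).natDegree ≤ w i) ∧
      (y i0).coeff 1 = 0 ∧ ∃ i, y i ≠ Polynomial.C (a i) := by
  let g : (Σ v : τ, Fin (δ v)) ⊕ Unit → MvPolynomial (Σ i : σ, Fin (w i)) ℂ :=
    Sum.elim (fun vj => (aeval (genArc w a) (f vj.1) : Polynomial (MvPolynomial (Σ i : σ, Fin (w i)) ℂ)).coeff
      (vj.2.1 + 1)) fun _ => X ⟨i0, ⟨0, hi0⟩⟩
  have hg0 : ∀ (v : τ) (j : Fin (δ v)), g (Sum.inl ⟨v, j⟩) =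
      (aeval (genArc w a) (f v) : Polynomial (MvPolynomial (Σ i : σ, Fin (w i)) ℂ)).coeff (j.1 + 1) := fun v j => rfl
  have hg1 : g (Sum.inr ()) = X ⟨i0, ⟨0, hi0⟩⟩ := rfl
  clear_value g
  obtain ⟨z, hz, hzg⟩ := exists_zero g (Sum.elim (fun vj => vj.2.1 + 1) fun _ => 1) (by
      rintro (⟨v, j⟩ | _)
      · exact Nat.succ_pos _
      · exact one_pos) (by
      rintro (⟨v, j⟩ | ⟨⟩)
      · rw [hg0]
        exact coeff_genArc w a (f v) (j.1 + 1)
      · rw [hg1]
        exact isHomogeneous_X ℂ _) (by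
      simp only [Fintype.card_sum, Fintype.card_sigma, Fintype.card_fin, Fintype.card_unit]
      lia)
  let φ : MvPolynomial (Σ i : σ, Fin (w i)) ℂ →+* ℂ := (aeval z : MvPolynomial (Σ i : σ, Fin (w i)) ℂ →ₐ[ℂ] ℂ)
  have hφ : ∀ P, φ P = aeval z P := fun P => rfl
  have hmap : ∀ P : MvPolynomial σ ℂ, aeval (fun i => (genArc w a i).map φ) P =
      (aeval (genArc w a) P : Polynomial (MvPolynomial (Σ i : σ, Fin (w i)) ℂ)).map φ := by
    intro P
    induction P using MvPolynomial.induction_on with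
    | C c =>
      rw [aeval_C, aeval_C]
      have h1 : (algebraMap ℂ (Polynomial (MvPolynomial (Σ i : σ, Fin (w i)) ℂ)) c) = Polynomial.C (C c) := rfl
      rw [h1, Polynomial.map_C, hφ, aeval_C]
      rfl
    | add p q hp hq => rw [map_add, map_add, Polynomial.map_add, hp, hq]
    | mul_X p i hp => rw [map_mul, map_mul, Polynomial.map_mul, hp, aeval_X, aeval_X]
  refine ⟨fun i => (genArc w a i).map φ, ?_, ?_, ?_, ?_, ?_⟩
  · intro v
    rw [hmap]
    refine Polynomial.ext fun k => ?_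
    rw [Polynomial.coeff_map, Polynomial.coeff_zero, hφ]
    rcases Nat.eq_zero_or_pos k with hk | hk
    · rw [hk, coeff_zero_genArc, ha, map_zero, map_zero]
    · by_cases hle : k ≤ δ v
      · obtain ⟨j, rfl⟩ : ∃ j, k = j + 1 := ⟨k - 1, by lia⟩
        have h1 := hzg (Sum.inl ⟨v, ⟨j, by lia⟩⟩)
        rw [hg0] at h1
        exact h1
      · rw [Polynomial.coeff_eq_zero_of_natDegree_lt, map_zero]
        have := natDegree_genArc w a (f v) (δ v) (hf v)
        lia
  · intro i
    rw [Polynomial.coeff_map, genArc_coeff_zero, hφ, aeval_C]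
    rfl
  · intro i
    exact Polynomial.natDegree_map_le.trans (genArc_natDegree w a i)
  · have h1 := genArc_coeff_succ w a i0 ⟨0, hi0⟩
    have h2 := hzg (Sum.inr ())
    rw [hg1, aeval_X] at h2
    change ((genArc w a i0).map φ).coeff (0 + 1) = 0
    rw [Polynomial.coeff_map, h1, hφ, map_pow, aeval_X, h2, zero_add, pow_one]
  · obtain ⟨⟨i, j⟩, hij⟩ := Function.ne_iff.mp hz
    refine ⟨i, fun h => hij ?_⟩
    have h1 := congrArg (fun P : Polynomial ℂ => P.coeff (j.1 + 1)) h
    simp only [Polynomial.coeff_map] at h1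
    rw [genArc_coeff_succ, hφ, map_pow, aeval_X, Polynomial.coeff_C_of_ne_zero (by lia)] at h1
    exact eq_zero_of_pow_eq_zero h1

end Pool.Agent.MP_cfacaa_ag.Tor
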