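import Mathlib

/-!
A lemma on polynomials whose powers coincide.
-/

namespace Pool.Agent.MP_cfacaa_ag.Tor

open Polynomial

theorem rootMult_pow (p : ℂ[X]) (hp : p ≠ 0) (α : ℂ) (k : ℕ) :
    (p ^ k).rootMultiplicity α = k * p.rootMultiplicity α := by
  induction k with
  | zero =>
    rw [pow_zero, zero_mul, rootMultiplicity_eq_zero]
    rw [IsRoot, eval_one]
    exact one_ne_zero
  | succ k ih =>
    rw [pow_succ, rootMultiplicity_mul (mul_ne_zero (pow_ne_zero _ hp) hp), ih]
    ring

/-- Polynomials `y i` with `y i (0) = 1` and `(y i) ^ (h i * w i0) = (y i0) ^ (h i * w i)`, the `w i` are coprime,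
the degree of `y i0` is at most `w i0` and its linear coefficient vanishes: all `y i` are equal to
`1`. -/
theorem poly_one {σ : Type} [Fintype σ] (w : σ → ℕ) (hw : ∀ i, 0 < w i) (i0 : σ) (y : σ → ℂ[X]) (h : σ → ℕ)
    (hh : ∀ i, 0 < h i) (hy : ∀ i, (y i).coeff 0 = 1)
    (he : ∀ i, y i ^ (h i * w i0) = y i0 ^ (h i * w i)) (n : σ → ℤ) (hn : ∑ i, n i * (w i : ℤ) = 1)
    (hd : (y i0).natDegree ≤ w i0) (h1 : (y i0).coeff 1 = 0) : ∀ i, y i = 1 := by
  have hne : ∀ i, y i ≠ 0 := by
    intro i h0
    have := hy i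
    rw [h0, coeff_zero] at this
    exact zero_ne_one this
  have hdeg : (y i0).natDegree = 0 := by
    by_contra hpos
    have hdeg' : 0 < (y i0).degree := natDegree_pos_iff_degree_pos.mp (Nat.pos_of_ne_zero hpos)
    obtain ⟨α, hα⟩ := Complex.exists_root hdeg'
    set m := (y i0).rootMultiplicity α with hm
    have hmpos : 0 < m := (rootMultiplicity_pos (hne i0)).mpr hα
    have hrel : ∀ i, w i0 * (y i).rootMultiplicity α = w i * m := by
      intro i
      have h2 := congrArg (rootMultiplicity α) (he i)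
      rw [rootMult_pow _ (hne i), rootMult_pow _ (hne i0), mul_assoc, mul_assoc] at h2
      exact Nat.eq_of_mul_eq_mul_left (hh i) h2
    have hdvd : (w i0 : ℤ) ∣ m := by
      refine ⟨∑ i, n i * ((y i).rootMultiplicity α : ℤ), ?_⟩
      rw [Finset.mul_sum]
      calc (m : ℤ) = (∑ i, n i * (w i : ℤ)) * m := by rw [hn, one_mul]
        _ = ∑ i, n i * ((w i : ℤ) * m) := by
            rw [Finset.sum_mul]
            refine Finset.sum_congr rfl fun i _ => by ring
        _ = ∑ i, (w i0 : ℤ) * (n i * ((y i).rootMultiplicity α : ℤ)) := by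
            refine Finset.sum_congr rfl fun i _ => ?_
            have h3 : (w i : ℤ) * m = w i0 * ((y i).rootMultiplicity α : ℤ) := by exact_mod_cast (hrel i).symm
            rw [h3]
            ring
    have hle : w i0 ≤ m := Nat.le_of_dvd hmpos (by exact_mod_cast hdvd)
    obtain ⟨g, hg⟩ := pow_rootMultiplicity_dvd (y i0) α
    rw [← hm] at hg
    have hgne : g ≠ 0 := by
      rintro rfl
      rw [mul_zero] at hg
      exact hne i0 hg
    have hgd : g.natDegree = 0 := by
      have h2 := congrArg natDegree hg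
      rw [natDegree_mul (pow_ne_zero _ (X_sub_C_ne_zero α)) hgne, natDegree_pow, natDegree_X_sub_C, mul_one] at h2
      lia
    rw [eq_C_of_natDegree_eq_zero hgd] at hg
    set c := g.coeff 0 with hc
    have h2 := hy i0
    rw [hg, coeff_zero_eq_eval_zero] at h2
    simp only [eval_mul, eval_pow, eval_sub, eval_X, eval_C, zero_sub] at h2
    have hα0 : α ≠ 0 := by
      rintro rfl
      rw [neg_zero, zero_pow hmpos.ne', zero_mul] at h2
      exact zero_ne_one h2
    have hc0 : c ≠ 0 := by
      intro h0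
      rw [h0, mul_zero] at h2
      exact zero_ne_one h2
    have h3 : (derivative (y i0)).eval 0 = 0 := by
      rw [← coeff_zero_eq_eval_zero, coeff_derivative, zero_add, h1, zero_mul]
    rw [hg, derivative_mul, derivative_C, mul_zero, add_zero, derivative_X_sub_C_pow] at h3
    simp only [eval_mul, eval_pow, eval_sub, eval_X, eval_C, zero_sub] at h3
    have h4 : (-α) ^ (m - 1) ≠ 0 := pow_ne_zero _ (neg_ne_zero.mpr hα0)
    have h5 : (m : ℂ) ≠ 0 := by exact_mod_cast hmpos.ne'
    exact mul_ne_zero (mul_ne_zero h5 h4) hc0 h3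
  have h0 : y i0 = 1 := by
    rw [eq_C_of_natDegree_eq_zero hdeg, hy i0, C_1]
  intro i
  have h2 := he i
  rw [h0, one_pow] at h2
  have h3 := congrArg natDegree h2
  rw [natDegree_pow, natDegree_one] at h3
  have h4 : (y i).natDegree = 0 := by
    rcases Nat.mul_eq_zero.mp h3 with h5 | h5
    · have := Nat.mul_pos (hh i) (hw i0)
      lia
    · exact h5
  rw [eq_C_of_natDegree_eq_zero h4, hy i, C_1]

end Pool.Agent.MP_cfacaa_ag.Tor
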