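import Pool.Agent.Lib.MP_cfacaa_ag.Tor.D2
import Pool.Agent.Lib.MP_cfacaa_ag.Tor.E2
import Pool.Agent.Lib.MP_cfacaa_ag.Tor.E3

/-!
The case in which the degrees of the equations are small.
-/

namespace Pool.Agent.MP_cfacaa_ag.Tor

open MvPolynomial

variable {ι κ : Type} [Fintype ι] [Fintype κ] {r : ℕ}

/-- The restrictions of monomials are weighted homogeneous. -/
theorem res_mon_hom (β : ι → Fin r → ℤ) (l : (Fin r → ℤ) →+ ℤ) (u : ι → ℂ) (e : ι → ℕ) :
    IsWeightedHomogeneous (fun i : {i : ι // 0 < l (β i)} => (l (β i.1)).toNat) (res β l u (mon e))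
      (l (dg β e)).toNat := by
  have h1 : res β l u (mon e) =
      ∏ i, (if h : 0 < l (β i) then X ⟨i, h⟩ else if l (β i) = 0 then C (u i) else 0 :
        MvPolynomial {i : ι // 0 < l (β i)} ℂ) ^ e i := by
    unfold res
    rw [aeval_mon]
    rfl
  rw [h1]
  by_cases hN : ∃ i, e i ≠ 0 ∧ l (β i) < 0
  · obtain ⟨i, hi, hli⟩ := hN
    rw [Finset.prod_eq_zero (Finset.mem_univ i)]
    · exact isWeightedHomogeneous_zero ℂ _ _
    · rw [dif_neg (by lia), if_neg (by lia), zero_pow hi]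
  · push Not at hN
    have h2 : (l (dg β e)).toNat = ∑ i, e i * (l (β i)).toNat := by
      have h3 : l (dg β e) = ((∑ i, e i * (l (β i)).toNat : ℕ) : ℤ) := by
        rw [map_dg]
        push_cast
        refine Finset.sum_congr rfl fun i _ => ?_
        by_cases hi : e i = 0
        · rw [hi]
          simp
        · have h4 := hN i hi
          rw [Int.toNat_of_nonneg h4]
      rw [h3, Int.toNat_natCast]
    rw [h2]
    refine IsWeightedHomogeneous.prod _ _ _ fun i _ => ?_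
    by_cases h3 : 0 < l (β i)
    · rw [dif_pos h3]
      exact (isWeightedHomogeneous_X ℂ (fun i : {i : ι // 0 < l (β i)} => (l (β i.1)).toNat) ⟨i, h3⟩).pow (e i)
    · have h4 : (l (β i)).toNat = 0 := by lia
      rw [dif_neg h3, h4, mul_zero]
      by_cases h5 : l (β i) = 0
      · rw [if_pos h5]
        have h6 := (isWeightedHomogeneous_C (fun i : {i : ι // 0 < l (β i)} => (l (β i.1)).toNat) (u i)).pow (e i)
        rw [smul_zero] at h6
        exact h6
      · rw [if_neg h5]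
        have h6 : e i = 0 := by
          by_contra h7
          have := hN i h7
          lia
        rw [h6, pow_zero]
        exact isWeightedHomogeneous_one ℂ _

/-- The restricted equations are weighted homogeneous. -/
theorem res_hom (S : Sys ι κ r) (l : (Fin r → ℤ) →+ ℤ) (u : ι → ℂ) (v : κ) :
    IsWeightedHomogeneous (fun i : {i : ι // 0 < l (S.β i)} => (l (S.β i.1)).toNat) (res S.β l u (S.F v))
      (l (S.γ v)).toNat := by
  have h1 := hom_mem_span S.β (S.γ v) (S.F v) (S.hF v)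
  have h2 : Submodule.span ℂ (mon '' {e : ι → ℕ | dg S.β e = S.γ v}) ≤
      (weightedHomogeneousSubmodule ℂ (fun i : {i : ι // 0 < l (S.β i)} => (l (S.β i.1)).toNat)
        (l (S.γ v)).toNat).comap (res S.β l u).toLinearMap := by
    rw [Submodule.span_le]
    rintro _ ⟨e, he, rfl⟩
    have h3 := res_mon_hom S.β l u e
    rw [show dg S.β e = S.γ v from he] at h3
    exact h3
  exact h2 h1

/-- The degrees of the nonvanishing coordinates outside of the facet have the greatest common divisor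
one. -/
theorem gcd_one {S : Sys ι κ r} (hS : S.Good) {u : ι → ℂ} (hu : u ∈ S.cone) {l : (Fin r → ℤ) →+ ℤ}
    (hl : Facet S.β u l) :
    ∃ n : {i : ι // u i ≠ 0 ∧ 0 < l (S.β i)} → ℤ, ∑ i, n i * ((l (S.β i.1)).toNat : ℤ) = 1 := by
  classical
  have key : ∀ b ∈ AddSubgroup.closure (S.β '' {i | u i ≠ 0}),
      ∃ n : {i : ι // u i ≠ 0 ∧ 0 < l (S.β i)} → ℤ, ∑ i, n i * ((l (S.β i.1)).toNat : ℤ) = l b := by
    intro b hb
    induction hb using AddSubgroup.closure_induction with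
    | mem x hx =>
      obtain ⟨i, hi, rfl⟩ := hx
      by_cases h : 0 < l (S.β i)
      · refine ⟨Pi.single ⟨i, hi, h⟩ 1, ?_⟩
        rw [Finset.sum_eq_single ⟨i, hi, h⟩]
        · rw [Pi.single_eq_same, one_mul]
          exact Int.toNat_of_nonneg h.le
        · intro j _ hj
          rw [Pi.single_eq_of_ne hj, zero_mul]
        · intro h
          exact absurd (Finset.mem_univ _) h
      · refine ⟨0, ?_⟩
        have := hl.nonneg i hi
        have h0 : l (S.β i) = 0 := by lia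
        rw [h0]
        simp
    | zero => exact ⟨0, by simp⟩
    | add x y _ _ hx hy =>
      obtain ⟨n, hn⟩ := hx
      obtain ⟨m, hm⟩ := hy
      refine ⟨n + m, ?_⟩
      rw [map_add, ← hn, ← hm, ← Finset.sum_add_distrib]
      refine Finset.sum_congr rfl fun i _ => ?_
      rw [Pi.add_apply, add_mul]
    | neg x _ hx =>
      obtain ⟨n, hn⟩ := hx
      refine ⟨-n, ?_⟩
      rw [map_neg, ← hn, ← Finset.sum_neg_distrib]
      refine Finset.sum_congr rfl fun i _ => ?_
      rw [Pi.neg_apply, neg_mul]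
  obtain ⟨b, hb⟩ := hl.surj 1
  have h1 : b ∈ AddSubgroup.closure (S.β '' {i | u i ≠ 0}) := by
    rw [hS.free u hu]
    exact AddSubgroup.mem_top b
  obtain ⟨n, hn⟩ := key b h1
  exact ⟨n, by rw [hn, hb]⟩

theorem alpha_case {S : Sys ι κ r} {D : Fin r → ℤ} {l : (Fin r → ℤ) →+ ℤ} {p q : ℕ} {u : ι → ℂ}
    (hs : Setup S D l p q u) (W : Finset κ)
    (hW : ∀ v ∉ W, ∀ x : ι → ℂ, (∀ i, l (S.β i) < 0 → x i = 0) → (∀ i, l (S.β i) = 0 → x i = u i) →
        aeval x (S.F v) = 0)
    (hc : ∑ v ∈ W, (l (S.γ v)).toNat + 2 ≤ ∑ i, (l (S.β i)).toNat) : False := by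
  classical
  obtain ⟨i0, hui0, hli0⟩ := exists_pos hs
  have hsum : ∑ v : W, (l (S.γ v.1)).toNat + 2 ≤ ∑ i : {i : ι // 0 < l (S.β i)}, (l (S.β i.1)).toNat := by
    have h1 : ∑ v : W, (l (S.γ v.1)).toNat = ∑ v ∈ W, (l (S.γ v)).toNat :=
      Finset.sum_coe_sort W (fun v => (l (S.γ v)).toNat)
    have h2 : ∑ i : {i : ι // 0 < l (S.β i)}, (l (S.β i.1)).toNat = ∑ i, (l (S.β i)).toNat := by
      rw [← Finset.sum_subtype (Finset.univ.filter fun i => 0 < l (S.β i)) (fun i => by simp)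
        (fun i => (l (S.β i)).toNat), Finset.sum_filter]
      refine Finset.sum_congr rfl fun i _ => ?_
      split_ifs with h
      · rfl
      · lia
    rw [h1, h2]
    exact hc
  obtain ⟨y, hyf, hy0, hyd, hy1, i1, hi1⟩ := arcs (fun i : {i : ι // 0 < l (S.β i)} => (l (S.β i.1)).toNat)
    (fun v : W => (l (S.γ v.1)).toNat) (fun v : W => res S.β l u (S.F v.1)) (fun v => res_hom S l u v.1)
    (fun i => u i.1) (fun v => aeval_res_self hs v.1) ⟨i0, hli0⟩ (by lia) hsum
  set ev : Polynomial ℂ →ₐ[ℂ] ℂ := Polynomial.aeval (0 : ℂ) with hev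
  have hevc : ∀ P : Polynomial ℂ, ev P = P.coeff 0 := by
    intro P
    rw [hev, Polynomial.coe_aeval_eq_eval, Polynomial.coeff_zero_eq_eval_zero]
  have ht : Test S l u (ext S.β l u y) ev := by
    refine test_ext hs y ev (fun i => ?_) fun v => ?_
    · rw [hevc]
      exact hy0 i
    · by_cases hv : v ∈ W
      · exact hyf ⟨v, hv⟩
      · rw [res_eq_zero S l u v (hW v hv), map_zero]
  have hex : ∀ i : {i : ι // u i ≠ 0 ∧ 0 < l (S.β i)}, ∃ h : ℕ, 0 < h ∧
      (ext S.β l u y i.1 * algebraMap ℂ (Polynomial ℂ) (u i.1)⁻¹) ^ (h * (l (S.β i0)).toNat) =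
        (ext S.β l u y i0 * algebraMap ℂ (Polynomial ℂ) (u i0)⁻¹) ^ (h * (l (S.β i.1)).toNat) := by
    intro i
    obtain ⟨h, hh, hrel⟩ := two_coords hs i.1 i0 i.2.1 hui0 i.2.2 hli0
    exact ⟨h, hh, hrel (Polynomial ℂ) _ ev ht⟩
  choose h hh hrel using hex
  obtain ⟨n, hn⟩ := gcd_one hs.good hs.mem hs.facet
  have hi0' : ext S.β l u y i0 = y ⟨i0, hli0⟩ := ext_pos S.β l u y ⟨i0, hli0⟩
  have halg : ∀ c : ℂ, algebraMap ℂ (Polynomial ℂ) c = Polynomial.C c := fun c => rfl
  have hone := poly_one (fun i : {i : ι // u i ≠ 0 ∧ 0 < l (S.β i)} => (l (S.β i.1)).toNat)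
    (fun i => by
      have := i.2.2
      lia)
    ⟨i0, hui0, hli0⟩ (fun i => ext S.β l u y i.1 * algebraMap ℂ (Polynomial ℂ) (u i.1)⁻¹) h hh
    (fun i => by
      have h1 := ht.at_ev i.1
      rw [hevc] at h1
      rw [halg, Polynomial.coeff_mul_C, h1]
      exact mul_inv_cancel₀ i.2.1)
    hrel n hn
    (by
      change (ext S.β l u y i0 * algebraMap ℂ (Polynomial ℂ) (u i0)⁻¹).natDegree ≤ _
      rw [hi0', halg]
      exact (Polynomial.natDegree_mul_C_le _ _).trans (hyd ⟨i0, hli0⟩))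
    (by
      change (ext S.β l u y i0 * algebraMap ℂ (Polynomial ℂ) (u i0)⁻¹).coeff 1 = 0
      rw [hi0', halg, Polynomial.coeff_mul_C, hy1, zero_mul])
    ⟨i0, hui0, hli0⟩
  have hone' : ext S.β l u y i0 * algebraMap ℂ (Polynomial ℂ) (u i0)⁻¹ = 1 := hone
  have h0 : ext S.β l u y i0 = algebraMap ℂ (Polynomial ℂ) (u i0) := by
    calc ext S.β l u y i0 = ext S.β l u y i0 * algebraMap ℂ (Polynomial ℂ) (u i0)⁻¹ *
            algebraMap ℂ (Polynomial ℂ) (u i0) := by
          rw [mul_assoc, mul_comm (algebraMap ℂ (Polynomial ℂ) (u i0)⁻¹), alg_mul_inv hui0, mul_one]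
      _ = algebraMap ℂ (Polynomial ℂ) (u i0) := by rw [hone', one_mul]
  apply hi1
  rw [← ext_pos S.β l u y i1, all_const hs ht i0 hui0 hli0 h0 i1.1 i1.2]
  rfl

end Pool.Agent.MP_cfacaa_ag.Tor
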