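import Pool.Agent.Lib.MP_cfacaa_ag.Tor.A4
import Pool.Agent.Lib.MP_cfacaa_ag.Tor.D2
import Pool.Agent.Lib.MP_cfacaa_ag.Tor.E4

/-!
The main theorem.
-/

namespace Pool.Agent.MP_cfacaa_ag.Tor

open MvPolynomial

variable {ι κ : Type} [Fintype ι] [Fintype κ] {r : ℕ}

/-- Nef classes are semiample. -/
theorem semiample_of_nef {S : Sys ι κ r} (hS : S.Good) {D : Fin r → ℤ} (hW : S.Wide D) (hD : S.Nef D) :
    ∀ x ∈ S.cone, InK S.β x D := by
  by_contra hcon
  push Not at hcon
  obtain ⟨l, p, q, hex, hp, hq, hlD, hlA, hsemi⟩ := extremal hS D hcon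
  obtain ⟨u, hu, hfu, W, hWv, hWc⟩ := hW l (by rw [hlD]; lia) hex
  have hs : Setup S D l p q u := ⟨hS, hD, hu, hfu, hp, hq, hlD, hlA, hsemi⟩
  rcases hWc with h | h
  · exact alpha_case hs W hWv h
  · exact beta_case hs W hWv h

/-- Monomials are sections. -/
theorem isSection_mon (S : Sys ι κ r) (e : ι → ℕ) : S.IsSection (dg S.β e) fun x => mo x e := by
  intro x _
  refine ⟨0, mon e, 1, ?_, ?_, ?_, ?_⟩
  · rw [zero_add]
    exact mon_hom S.β e
  · exact isWeightedHomogeneous_one ℂ _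
  · rw [map_one]
    exact one_ne_zero
  · intro y _ _
    rw [map_one, mul_one, aeval_mon]

/-- Semiample classes are nef. -/
theorem nef_of_semiample {S : Sys ι κ r} {D : Fin r → ℤ} (hD : ∀ x ∈ S.cone, InK S.β x D) : S.Nef D := by
  intro m _
  obtain ⟨a, ha, hae⟩ := uniform S.β S.cone D hD
  obtain ⟨b, hb, hbe⟩ := uniform S.β S.cone S.A fun x hx => hx.2
  refine ⟨a * b, Nat.mul_pos ha hb, fun x hx => ?_⟩
  obtain ⟨e, he, hxe⟩ := hae x hx
  obtain ⟨f, hf, hxf⟩ := hbe x hx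
  refine ⟨fun x => mo x ((b * m) • e + a • f), ?_, ?_⟩
  · have h1 : dg S.β ((b * m) • e + a • f) = (a * b) • (m • D + S.A) := by
      rw [dg_add, dg_smul, dg_smul, he, hf, smul_add]
      simp only [← mul_smul]
      congr 2
      ring
    rw [← h1]
    exact isSection_mon S _
  · beta_reduce
    rw [mo_add, mo_smul, mo_smul]
    exact mul_ne_zero (pow_ne_zero _ hxe) (pow_ne_zero _ hxf)

/-- Products of sections. -/
theorem Sys.IsSection.mul {S : Sys ι κ r} {B B' : Fin r → ℤ} {s t : (ι → ℂ) → ℂ} (hs : S.IsSection B s)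
    (ht : S.IsSection B' t) : S.IsSection (B + B') fun x => s x * t x := by
  intro x hx
  obtain ⟨q, P, Q, hP, hQ, hQx, hPQ⟩ := hs x hx
  obtain ⟨q', P', Q', hP', hQ', hQx', hPQ'⟩ := ht x hx
  refine ⟨q + q', P * P', Q * Q', ?_, hQ.mul hQ', ?_, ?_⟩
  · have h1 := hP.mul hP'
    rw [add_add_add_comm] at h1
    exact h1
  · rw [map_mul]
    exact mul_ne_zero hQx hQx'
  · intro y hy hyQ
    rw [map_mul] at hyQ
    rw [map_mul, map_mul, ← hPQ y hy (left_ne_zero_of_mul hyQ), ← hPQ' y hy (right_ne_zero_of_mul hyQ)]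
    ring

/-- Powers of sections. -/
theorem Sys.IsSection.pow {S : Sys ι κ r} {B : Fin r → ℤ} {s : (ι → ℂ) → ℂ} (hs : S.IsSection B s) (n : ℕ) :
    S.IsSection (n • B) fun x => s x ^ n := by
  induction n with
  | zero =>
    have h1 := isSection_mon S 0
    rw [dg_zero] at h1
    rw [zero_smul]
    simpa [mo_zero] using h1
  | succ n ih =>
    have h1 := Sys.IsSection.mul ih hs
    rw [← succ_nsmul] at h1
    simpa only [pow_succ] using h1

/-- Classes with a globally generated multiple are nef. -/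
theorem nef_of_generated {S : Sys ι κ r} {D : Fin r → ℤ} {n : ℕ} (hn : 0 < n) (hD : S.GloballyGenerated (n • D)) :
    S.Nef D := by
  intro m _
  obtain ⟨b, hb, hbe⟩ := uniform S.β S.cone S.A fun x hx => hx.2
  refine ⟨n * b, Nat.mul_pos hn hb, fun x hx => ?_⟩
  obtain ⟨s, hs, hsx⟩ := hD x hx
  obtain ⟨f, hf, hxf⟩ := hbe x hx
  refine ⟨fun x => s x ^ (b * m) * mo x f ^ n, ?_, ?_⟩
  · have h1 := Sys.IsSection.mul (hs.pow (b * m)) ((isSection_mon S f).pow n)
    have h2 : (b * m) • (n • D) + n • dg S.β f = (n * b) • (m • D + S.A) := by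
      rw [hf, smul_add]
      simp only [← mul_smul]
      congr 2
      ring
    rw [h2] at h1
    exact h1
  · exact mul_ne_zero (pow_ne_zero _ hsx) (pow_ne_zero _ hxf)

end Pool.Agent.MP_cfacaa_ag.Tor
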