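import Pool.Agent.Lib.MP_cfacaa_ag.Tor.A4
import Pool.Agent.Lib.MP_cfacaa_ag.Tor.C3

/-!
The Calabi–Yau case, more generally the case of a semiample anticanonical degree.
-/

namespace Pool.Agent.MP_cfacaa_ag.Tor

open MvPolynomial

variable {ι κ : Type} [Fintype ι] [Fintype κ] {r : ℕ}

/-- An equation whose degree lies on the wall vanishes on the affine space in the direction of the
wall. -/
theorem aeval_eq_zero_of_flat (S : Sys ι κ r) {u : ι → ℂ} (hu : u ∈ S.cone) {l : (Fin r → ℤ) →+ ℤ}
    (hl : Facet S.β u l) (v : κ) (hv : l (S.γ v) ≤ 0) (x : ι → ℂ) (hneg : ∀ i, l (S.β i) < 0 → x i = 0)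
    (hflat : ∀ i, l (S.β i) = 0 → x i = u i) : aeval x (S.F v) = 0 := by
  have huneg : ∀ i, l (S.β i) < 0 → u i = 0 := by
    intro i hi
    by_contra h
    have := hl.nonneg i h
    lia
  have key : ∀ P : MvPolynomial ι ℂ, P ∈ Submodule.span ℂ (mon '' {e : ι → ℕ | dg S.β e = S.γ v}) →
      aeval x P = aeval u P := by
    intro P hP
    induction hP using Submodule.span_induction with
    | mem P hP =>
      obtain ⟨e, he, rfl⟩ := hP
      rw [aeval_mon, aeval_mon]
      by_cases hN : ∃ i, e i ≠ 0 ∧ l (S.β i) < 0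
      · obtain ⟨i, hi, hli⟩ := hN
        have h1 : mo u e = 0 := by
          by_contra h
          exact (mo_ne_zero_iff u e).mp h i hi (huneg i hli)
        have h2 : mo x e = 0 := by
          by_contra h
          exact (mo_ne_zero_iff x e).mp h i hi (hneg i hli)
        rw [h1, h2]
      · push Not at hN
        have h0 : ∀ i ∈ Finset.univ, 0 ≤ (e i : ℤ) * l (S.β i) := by
          intro i _
          by_cases hi : e i = 0
          · rw [hi]
            simp
          · exact mul_nonneg (Int.natCast_nonneg _) (hN i hi)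
        have h1 : ∑ i, (e i : ℤ) * l (S.β i) = 0 := by
          refine le_antisymm ?_ (Finset.sum_nonneg h0)
          rw [← map_dg, show dg S.β e = S.γ v from he]
          exact hv
        have h2 := (Finset.sum_eq_zero_iff_of_nonneg h0).mp h1
        unfold mo
        refine Finset.prod_congr rfl fun i _ => ?_
        by_cases hi : e i = 0
        · rw [hi, pow_zero, pow_zero]
        · have h3 : l (S.β i) = 0 := by
            rcases mul_eq_zero.mp (h2 i (Finset.mem_univ i)) with h | h
            · exact absurd (by exact_mod_cast h) hi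
            · exact h
          rw [hflat i h3]
    | zero => rw [map_zero, map_zero]
    | add P Q _ _ hP hQ => rw [map_add, map_add, hP, hQ]
    | smul c P _ hP => rw [map_smul, map_smul, hP]
  rw [key _ (hom_mem_span S.β (S.γ v) (S.F v) (S.hF v))]
  exact hu.1 v

/-- If the anticanonical degree is semiample on `X`, the condition on the walls holds for movable
classes. -/
theorem wide_of_antiNef {S : Sys ι κ r} (hS : S.AntiNef) {D : Fin r → ℤ} (hD : S.Movable D) : S.Wide D := by
  classical
  intro l hlD ⟨u, hu, hl⟩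
  refine ⟨u, hu, hl, Finset.univ.filter fun v => 0 < l (S.γ v), ?_, Or.inl ?_⟩
  · intro v hv x hneg hflat
    refine aeval_eq_zero_of_flat S hu hl v ?_ x hneg hflat
    simpa using hv
  -- two negative coordinates
  have hex : ∀ (n : ℕ) (e : ι → ℕ), 0 < n → dg S.β e = n • D → ∃ i, e i ≠ 0 ∧ l (S.β i) < 0 := by
    intro n e hn he
    by_contra hcon
    push Not at hcon
    have h1 : 0 ≤ l (dg S.β e) := by
      rw [map_dg]
      refine Finset.sum_nonneg fun i _ => ?_
      by_cases hi : e i = 0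
      · rw [hi]
        simp
      · exact mul_nonneg (Int.natCast_nonneg _) (hcon i hi)
    rw [he, map_nsmul, nsmul_eq_mul] at h1
    have h2 : (n : ℤ) * l D < 0 := mul_neg_of_pos_of_neg (by exact_mod_cast hn) hlD
    lia
  obtain ⟨⟨n, hn, e, he⟩, hmov⟩ := hD
  obtain ⟨i, hi, hli⟩ := hex n e hn he
  have hui : u i = 0 := by
    by_contra h
    have := hl.nonneg i h
    lia
  obtain ⟨n', hn', e', he', hei⟩ := hmov i ⟨u, hu, hui⟩
  obtain ⟨j, hj, hlj⟩ := hex n' e' hn' he'
  have hij : i ≠ j := by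
    rintro rfl
    exact hj hei
  -- the sum of the degrees
  have hγ : ∀ v, 0 ≤ l (S.γ v) := by
    intro v
    obtain ⟨k, hk, f, hf, huf⟩ := hS.semiample u hu v
    have h1 := hl.dg_nonneg huf
    rw [hf, map_nsmul, nsmul_eq_mul] at h1
    by_contra h
    push Not at h
    have h2 : (k : ℤ) * l (S.γ v) < 0 := mul_neg_of_pos_of_neg (by exact_mod_cast hk) h
    lia
  have h1 : ((∑ v ∈ Finset.univ.filter (fun v => 0 < l (S.γ v)), (l (S.γ v)).toNat : ℕ) : ℤ) = ∑ v, l (S.γ v) := by
    rw [Finset.sum_filter]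
    push_cast
    refine Finset.sum_congr rfl fun v _ => ?_
    have := hγ v
    split_ifs with h
    · exact Int.toNat_of_nonneg h.le
    · lia
  have h2 : ∑ v, l (S.γ v) ≤ ∑ i, l (S.β i) := by
    obtain ⟨k, hk, f, hf, huf⟩ := hS.anti u hu
    have h3 := hl.dg_nonneg huf
    rw [hf, map_nsmul, nsmul_eq_mul, map_sub, map_sum, map_sum] at h3
    by_contra h
    push Not at h
    have h4 : (k : ℤ) * (∑ i, l (S.β i) - ∑ v, l (S.γ v)) < 0 :=
      mul_neg_of_pos_of_neg (by exact_mod_cast hk) (by lia)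
    lia
  have h3 : ∑ i, l (S.β i) + 2 ≤ ∑ i, ((l (S.β i)).toNat : ℤ) := by
    have h4 : ∀ k, ((l (S.β k)).toNat : ℤ) - l (S.β k) = ((-(l (S.β k))).toNat : ℤ) := by
      intro k
      lia
    have h5 : (2 : ℤ) ≤ ∑ k, ((-(l (S.β k))).toNat : ℤ) := by
      calc (2 : ℤ) ≤ ∑ k ∈ {i, j}, ((-(l (S.β k))).toNat : ℤ) := by
            rw [Finset.sum_pair hij]
            lia
        _ ≤ ∑ k, ((-(l (S.β k))).toNat : ℤ) :=
            Finset.sum_le_sum_of_subset_of_nonneg (Finset.subset_univ _) fun k _ _ => Int.natCast_nonneg _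
    rw [← Finset.sum_congr rfl fun k _ => h4 k, Finset.sum_sub_distrib] at h5
    lia
  have h6 : ((∑ v ∈ Finset.univ.filter (fun v => 0 < l (S.γ v)), (l (S.γ v)).toNat + 2 : ℕ) : ℤ) ≤
      ((∑ i, (l (S.β i)).toNat : ℕ) : ℤ) := by
    rw [Nat.cast_add, h1]
    push_cast at h3 ⊢
    lia
  exact_mod_cast h6

end Pool.Agent.MP_cfacaa_ag.Tor
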